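import Pool.Agent.Q236.CR.Stm
import Pool.Agent.H307R2.LU

set_option autoImplicit false

/-!
Project BW (helper88), statement (LUP): upper bounds for Dirichlet `L`-functions near the line `Re s = 1`.
Adaptation of `Pool/Agent/Y306/VK/Zeta.lean`.
-/

namespace Pool.Agent.L7h50.BW.Lup

open Finset Filter
open Pool.Agent.Q236.CR (nt)

/-- Abel's inequality, with the boundary term -/
theorem abel {a : ℕ → ℝ} {z : ℕ → ℂ} {M M' : ℕ} {B : ℝ}
    (ha : ∀ n, M ≤ n → a (n + 1) ≤ a n)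
    (hB : ∀ k, M ≤ k → k ≤ M' → ‖∑ n ∈ Ioc M k, z n‖ ≤ B) :
    ∀ k, M ≤ k → k ≤ M' →
      ‖∑ n ∈ Ioc M k, (a n : ℂ) * z n - a k * ∑ n ∈ Ioc M k, z n‖ ≤ (a M - a k) * B := by
  intro k hk
  induction k, hk using Nat.le_induction with
  | base => intro _; simp
  | succ k hk ih =>
    intro hk'
    have h1 := ih (by omega)
    have h2 := hB k hk (by omega)
    rw [Finset.sum_Ioc_succ_top (by omega), Finset.sum_Ioc_succ_top (by omega)]
    have e1 : (∑ n ∈ Ioc M k, (a n : ℂ) * z n) + (a (k + 1) : ℂ) * z (k + 1) -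
        (a (k + 1) : ℂ) * ((∑ n ∈ Ioc M k, z n) + z (k + 1)) =
        (∑ n ∈ Ioc M k, (a n : ℂ) * z n - a k * ∑ n ∈ Ioc M k, z n) +
          ((a k - a (k + 1) : ℝ) : ℂ) * ∑ n ∈ Ioc M k, z n := by
      push_cast
      ring
    rw [e1]
    have h3 : ‖((a k - a (k + 1) : ℝ) : ℂ) * ∑ n ∈ Ioc M k, z n‖ ≤ (a k - a (k + 1)) * B := by
      rw [norm_mul, Complex.norm_real, Real.norm_of_nonneg (sub_nonneg.2 (ha k hk))]
      exact mul_le_mul_of_nonneg_left h2 (sub_nonneg.2 (ha k hk))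
    calc _ ≤ (a M - a k) * B + (a k - a (k + 1)) * B := (norm_add_le _ _).trans (add_le_add h1 h3)
      _ = _ := by ring

theorem abel' {a : ℕ → ℝ} {z : ℕ → ℂ} {M M' : ℕ} {B : ℝ} (hM : M ≤ M')
    (ha : ∀ n, M ≤ n → a (n + 1) ≤ a n) (ha0 : 0 ≤ a M')
    (hB : ∀ k, M ≤ k → k ≤ M' → ‖∑ n ∈ Ioc M k, z n‖ ≤ B) :
    ‖∑ n ∈ Ioc M M', (a n : ℂ) * z n‖ ≤ a M * B := by
  have h1 := abel ha hB M' hM le_rfl
  have h2 : ‖(a M' : ℂ) * ∑ n ∈ Ioc M M', z n‖ ≤ a M' * B := by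
    rw [norm_mul, Complex.norm_real, Real.norm_of_nonneg ha0]
    exact mul_le_mul_of_nonneg_left (hB M' hM le_rfl) ha0
  have h3 := norm_add_le (∑ n ∈ Ioc M M', (a n : ℂ) * z n - a M' * ∑ n ∈ Ioc M M', z n)
    ((a M' : ℂ) * ∑ n ∈ Ioc M M', z n)
  rw [sub_add_cancel] at h3
  linarith

theorem term_eq {n : ℕ} (hn : n ≠ 0) (σ t : ℝ) :
    (n : ℂ) ^ (-(⟨σ, t⟩ : ℂ)) = (((n : ℝ) ^ (-σ) : ℝ) : ℂ) * nt t n := by
  have hn' : (n : ℂ) ≠ 0 := by exact_mod_cast hn
  unfold nt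
  rw [Complex.ofReal_cpow (Nat.cast_nonneg n)]
  have h1 : (((n : ℝ)) : ℂ) = (n : ℂ) := by push_cast; rfl
  rw [h1, ← Complex.cpow_add _ _ hn']
  congr 1
  apply Complex.ext
  · simp
  · simp

/-- the numbers -/
structure Num (B C : ℕ) (c C₂ L u v w : ℝ) : Prop where
  c0 : 0 < c
  c1 : c ≤ 1
  k1 : 1 ≤ C₂
  u1 : 1 ≤ u
  uv : u ^ (C + 4) = v
  v2 : v ^ 2 = L
  hw : w * L = u
  lL : 0 ≤ Real.log L
  hv : 1000 + 18 * ((C : ℝ) * 3 ^ C) + 8 * Real.log (2 * C₂) + (18 * (B : ℝ) + 100) * Real.log L ≤ c * v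

namespace Num

variable {B C : ℕ} {c C₂ L u v w : ℝ}

theorem lC (h : Num B C c C₂ L u v w) : 0 ≤ Real.log (2 * C₂) := by
  apply Real.log_nonneg
  have := h.k1
  linarith

theorem cv (h : Num B C c C₂ L u v w) : 1000 ≤ c * v := by
  have h1 := h.hv
  have h2 := h.lC
  have h3 : 0 ≤ (18 * (B : ℝ) + 100) * Real.log L := mul_nonneg (by positivity) h.lL
  have h4 : (0 : ℝ) ≤ (C : ℝ) * 3 ^ C := by positivity
  linarith

theorem v0 (h : Num B C c C₂ L u v w) : 0 < v := by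
  have h1 := h.cv
  by_contra h2
  rw [not_lt] at h2
  have := mul_nonpos_of_nonneg_of_nonpos h.c0.le h2
  linarith

theorem cv_le (h : Num B C c C₂ L u v w) : c * v ≤ v := by
  have := mul_le_mul_of_nonneg_right h.c1 h.v0.le
  rwa [one_mul] at this

theorem vk (h : Num B C c C₂ L u v w) : 1000 ≤ v := h.cv.trans h.cv_le

theorem vL (h : Num B C c C₂ L u v w) : 1000 * v ≤ L := by
  rw [← h.v2, pow_two]
  exact mul_le_mul_of_nonneg_right h.vk h.v0.le

theorem L6 (h : Num B C c C₂ L u v w) : 1000000 ≤ L := by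
  have := h.vL
  have := h.vk
  linarith

theorem upow (h : Num B C c C₂ L u v w) {k : ℕ} (hk : k ≤ C + 4) : u ^ k ≤ v := by
  rw [← h.uv]
  exact pow_le_pow_right₀ h.u1 hk

theorem u_le (h : Num B C c C₂ L u v w) : u ≤ v := by
  have := h.upow (show 1 ≤ C + 4 by omega)
  rwa [pow_one] at this

theorem w0 (h : Num B C c C₂ L u v w) : 0 < w := by
  have h1 := h.hw
  have h2 := h.L6
  have h3 := h.u1
  by_contra hcon
  rw [not_lt] at hcon
  have := mul_nonpos_of_nonpos_of_nonneg hcon (by linarith : 0 ≤ L)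
  linarith

theorem w_le (h : Num B C c C₂ L u v w) : w ≤ 1 / 1000 := by
  have h1 := h.hw
  have h2 := h.u_le
  have h3 := h.vL
  have h4 := h.L6
  have h5 : w * L ≤ (1 / 1000) * L := by linarith
  exact le_of_mul_le_mul_right h5 (by linarith)

/-- the exponent of a piece below the height -/
theorem pieceA (h : Num B C c C₂ L u v w) {κ m : ℝ} (hm : L / u ≤ m) (hκ0 : 0 ≤ κ)
    (hκ : 1 + κ ≤ 3 * u) :
    B * Real.log L + C * (1 + κ) ^ C + m * (w - c / (1 + κ) ^ 2) ≤ 0 := by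
  have hL := h.L6
  have hu := h.u1
  have hc := h.c0
  have hL0 : 0 < L := by linarith
  have hu0 : 0 < u := by linarith
  have hm0 : 0 < m := lt_of_lt_of_le (by positivity) hm
  have h2 : (1 + κ) ^ C ≤ (3 * u) ^ C := pow_le_pow_left₀ (by linarith) hκ C
  have h3 : c / (9 * u ^ 2) ≤ c / (1 + κ) ^ 2 := by
    refine div_le_div_of_nonneg_left hc.le (by positivity) ?_
    have h4 := pow_le_pow_left₀ (by linarith : (0 : ℝ) ≤ 1 + κ) hκ 2
    calc (1 + κ) ^ 2 ≤ (3 * u) ^ 2 := h4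
      _ = 9 * u ^ 2 := by ring
  have hv0 : 0 < v := h.v0
  have hC0 : (0 : ℝ) ≤ (C : ℝ) * 3 ^ C := by positivity
  have h5 : w ≤ c / (18 * u ^ 2) := by
    rw [le_div_iff₀ (by positivity)]
    have h6 : w * L * (18 * u ^ 2) ≤ c * L := by
      rw [h.hw]
      have h7 := h.upow (show 3 ≤ C + 4 by omega)
      have h9 := h.cv
      calc u * (18 * u ^ 2) = 18 * u ^ 3 := by ring
        _ ≤ 18 * v := by linarith
        _ ≤ c * v * v := mul_le_mul_of_nonneg_right (by linarith) hv0.le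
        _ = c * L := by rw [← h.v2]; ring
    have h10 : L * (w * (18 * u ^ 2)) ≤ L * c := by linarith
    exact le_of_mul_le_mul_left h10 hL0
  have h6 : m * (w - c / (1 + κ) ^ 2) ≤ -(c * L / (18 * u ^ 3)) := by
    have h7 : w - c / (1 + κ) ^ 2 ≤ -(c / (18 * u ^ 2)) := by
      have e : c / (9 * u ^ 2) = 2 * (c / (18 * u ^ 2)) := by field_simp; ring
      linarith
    have h8 : c * L / (18 * u ^ 3) = (L / u) * (c / (18 * u ^ 2)) := by field_simp
    have h9 : (L / u) * (c / (18 * u ^ 2)) ≤ m * (c / (18 * u ^ 2)) :=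
      mul_le_mul_of_nonneg_right hm (by positivity)
    have h10 : m * (w - c / (1 + κ) ^ 2) ≤ m * (-(c / (18 * u ^ 2))) :=
      mul_le_mul_of_nonneg_left h7 hm0.le
    rw [h8]
    linarith
  have h7 : B * Real.log L + (C : ℝ) * (1 + κ) ^ C ≤ c * L / (18 * u ^ 3) := by
    rw [le_div_iff₀ (by positivity)]
    have hu3 := h.upow (show 3 ≤ C + 4 by omega)
    have huC := h.upow (show C + 3 ≤ C + 4 by omega)
    have hBl : 0 ≤ (B : ℝ) * Real.log L := mul_nonneg (by positivity) h.lL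
    calc (B * Real.log L + (C : ℝ) * (1 + κ) ^ C) * (18 * u ^ 3)
        ≤ (B * Real.log L + C * (3 * u) ^ C) * (18 * u ^ 3) := by
          refine mul_le_mul_of_nonneg_right ?_ (by positivity)
          have := mul_le_mul_of_nonneg_left h2 (Nat.cast_nonneg (α := ℝ) C)
          linarith
      _ = 18 * (B * Real.log L) * u ^ 3 + 18 * (C * 3 ^ C) * u ^ (C + 3) := by
          rw [mul_pow, pow_add]; ring
      _ ≤ 18 * (B * Real.log L) * v + 18 * (C * 3 ^ C) * v := by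
          refine add_le_add ?_ ?_
          · exact mul_le_mul_of_nonneg_left hu3 (by positivity)
          · exact mul_le_mul_of_nonneg_left huC (by positivity)
      _ = (18 * (B * Real.log L) + 18 * (C * 3 ^ C)) * v := by ring
      _ ≤ (c * v) * v := by
          refine mul_le_mul_of_nonneg_right ?_ hv0.le
          have h1 := h.hv
          have h2 := h.lC
          have h3 := h.lL
          linarith
      _ = c * L := by rw [← h.v2]; ring
  linarith

/-- a general consequence -/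
theorem gen (h : Num B C c C₂ L u v w) {F : ℝ} (hF : F ≤ 1000 + 18 * ((C : ℝ) * 3 ^ C) +
    8 * Real.log (2 * C₂) + (18 * (B : ℝ) + 100) * Real.log L) : F * u ≤ L := by
  have h1 : F ≤ v := hF.trans (h.hv.trans h.cv_le)
  have h2 := h.u_le
  have h3 := h.u1
  have h4 := h.v0
  calc F * u ≤ v * u := mul_le_mul_of_nonneg_right h1 (by linarith)
    _ ≤ v * v := mul_le_mul_of_nonneg_left h2 h4.le
    _ = L := by rw [← h.v2]; ring

theorem log_le (h : Num B C c C₂ L u v w) : Real.log (1 + 4 * L) ≤ 2 + Real.log L := by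
  have hL := h.L6
  have h1 : Real.log (1 + 4 * L) ≤ Real.log (5 * L) := Real.log_le_log (by linarith) (by linarith)
  rw [Real.log_mul (by norm_num) (by linarith)] at h1
  have h2 : Real.log 5 ≤ 2 := by
    rw [Real.log_le_iff_le_exp (by norm_num)]
    have h3 := Real.exp_one_gt_d9
    have h4 : Real.exp 2 = Real.exp 1 * Real.exp 1 := by
      rw [← Real.exp_add]; norm_num
    rw [h4]
    nlinarith
  linarith

/-- the exponent of a piece above the height -/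
theorem pieceB (h : Num B C c C₂ L u v w) :
    Real.log (2 * C₂) + B * Real.log L + Real.log (1 + 4 * L) + 4 * u - L / (8 * u) ≤ 0 := by
  have hu := h.u1
  have hu0 : 0 < u := by linarith
  have hlog := h.log_le
  have h1 : Real.log (2 * C₂) + B * Real.log L + Real.log (1 + 4 * L) + 4 * u ≤ L / (8 * u) := by
    rw [le_div_iff₀ (by positivity)]
    have hlC := h.lC
    have hlL := h.lL
    have hv0 := h.v0
    have hBl : 0 ≤ (B : ℝ) * Real.log L := mul_nonneg (by positivity) h.lL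
    have hC0 : (0 : ℝ) ≤ (C : ℝ) * 3 ^ C := by positivity
    have hu2 := h.upow (show 2 ≤ C + 4 by omega)
    have h2 : 8 * Real.log (2 * C₂) + 8 * (B * Real.log L) + 8 * (2 + Real.log L) + 32 ≤ v := by
      have := h.hv.trans h.cv_le
      linarith
    calc (Real.log (2 * C₂) + B * Real.log L + Real.log (1 + 4 * L) + 4 * u) * (8 * u)
        ≤ (Real.log (2 * C₂) + B * Real.log L + (2 + Real.log L) + 4 * u) * (8 * u) :=
          mul_le_mul_of_nonneg_right (by linarith) (by positivity)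
      _ = (8 * Real.log (2 * C₂) + 8 * (B * Real.log L) + 8 * (2 + Real.log L)) * u + 32 * u ^ 2 := by
          ring
      _ ≤ (8 * Real.log (2 * C₂) + 8 * (B * Real.log L) + 8 * (2 + Real.log L)) * v + 32 * v := by
          refine add_le_add ?_ (by linarith)
          exact mul_le_mul_of_nonneg_left h.u_le (by positivity)
      _ = (8 * Real.log (2 * C₂) + 8 * (B * Real.log L) + 8 * (2 + Real.log L) + 32) * v := by ring
      _ ≤ v * v := mul_le_mul_of_nonneg_right h2 hv0.le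
      _ = L := by rw [← h.v2]; ring
  linarith

end Num

section

variable {B C : ℕ} {c C₂ : ℝ} {q : ℕ} {χ : DirichletCharacter ℂ q} {L u v w t σ : ℝ}

theorem sum_eq (χ : DirichletCharacter ℂ q) (σ t : ℝ) (M M' : ℕ) :
    ∑ n ∈ Ioc M M', χ (n : ZMod q) * (n : ℂ) ^ (-(⟨σ, t⟩ : ℂ)) =
      ∑ n ∈ Ioc M M', ((((n : ℝ) ^ (-σ) : ℝ)) : ℂ) * (χ (n : ZMod q) * nt t n) := by
  refine Finset.sum_congr rfl fun n hn => ?_
  rw [Finset.mem_Ioc] at hn
  rw [term_eq (by omega) σ t]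
  ring

/-- a piece below the height -/
theorem pieceA_le
    (hZ : ∀ (N N' : ℕ) (t κ : ℝ), 2 ≤ N → N ≤ N' → N' ≤ 2 * N → 1 ≤ κ → |t| = (N : ℝ) ^ κ →
      ‖∑ n ∈ Finset.Ioc N N', χ (n : ZMod q) * nt t n‖ ≤
        q * (Real.exp (C * (1 + κ) ^ C) * (N : ℝ) ^ (1 - c / (1 + κ) ^ 2 : ℝ)))
    (h : Num B C c C₂ L u v w) (hq : (q : ℝ) ≤ L ^ B) (hq0 : q ≠ 0) (ht : |t| ≤ 3 * Real.exp L)
    (hσ : 1 - w ≤ σ) {M M' : ℕ} (hM1 : L / u ≤ Real.log M) (hMt : (M : ℝ) ≤ |t|) (hMM : M ≤ M')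
    (hM' : M' ≤ 2 * M) :
    ‖∑ n ∈ Ioc M M', χ (n : ZMod q) * (n : ℂ) ^ (-(⟨σ, t⟩ : ℂ))‖ ≤ 1 := by
  have hL := h.L6
  have hu := h.u1
  have hL0 : 0 < L := by linarith
  have hm0 : 0 < Real.log M := lt_of_lt_of_le (by positivity) hM1
  have hM2' : 2 ≤ M := by
    by_contra hcon
    have : M = 0 ∨ M = 1 := by omega
    rcases this with rfl | rfl <;> simp at hm0
  have hMR : (0 : ℝ) < M := by exact_mod_cast (by omega : 0 < M)
  have ht0 : 0 < |t| := lt_of_lt_of_le hMR hMt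
  set κ : ℝ := Real.log |t| / Real.log M with hκ
  have hκ2 : 1 ≤ κ := by
    rw [hκ, le_div_iff₀ hm0, one_mul]
    exact Real.log_le_log hMR hMt
  have htκ : |t| = (M : ℝ) ^ κ := by
    rw [Real.rpow_def_of_pos hMR, hκ, mul_div_cancel₀ _ hm0.ne', Real.exp_log ht0]
  have hκu : 1 + κ ≤ 3 * u := by
    have h1 : Real.log |t| ≤ 2 * L := by
      have h2 := Real.log_le_log ht0 ht
      rw [Real.log_mul (by norm_num) (Real.exp_pos _).ne', Real.log_exp] at h2
      have h3 : Real.log 3 ≤ 2 := by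
        have := Real.log_le_sub_one_of_pos (show (0 : ℝ) < 3 by norm_num)
        linarith
      linarith
    have h2 : κ ≤ 2 * u := by
      rw [hκ, div_le_iff₀ hm0]
      have h3 : 2 * u * (L / u) ≤ 2 * u * Real.log M :=
        mul_le_mul_of_nonneg_left hM1 (by linarith)
      have h4 : 2 * u * (L / u) = 2 * L := by field_simp
      linarith
    linarith
  have hσ0 : 0 ≤ σ := by
    have := h.w_le
    linarith
  rw [sum_eq]
  have h2 := abel' (a := fun n : ℕ => (n : ℝ) ^ (-σ))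
    (z := fun n : ℕ => χ (n : ZMod q) * nt t n) (B := q * (Real.exp (C * (1 + κ) ^ C) *
      (M : ℝ) ^ (1 - c / (1 + κ) ^ 2 : ℝ))) hMM (by
      intro n hn
      have hn0 : (0 : ℝ) < n := by exact_mod_cast (by omega : 0 < n)
      refine Real.rpow_le_rpow_of_nonpos hn0 ?_ (by linarith)
      push_cast
      linarith) (by positivity) (by
      intro k hk hk'
      exact hZ M k t κ hM2' hk (by omega) hκ2 htκ)
  refine h2.trans ?_
  have hqR : (0 : ℝ) < q := by exact_mod_cast Nat.pos_of_ne_zero hq0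
  have h3 : (M : ℝ) ^ (-σ) * (q * (Real.exp (C * (1 + κ) ^ C) *
      (M : ℝ) ^ (1 - c / (1 + κ) ^ 2 : ℝ))) =
      Real.exp (Real.log q + C * (1 + κ) ^ C + Real.log M * (1 - σ - c / (1 + κ) ^ 2)) := by
    rw [Real.rpow_def_of_pos hMR, Real.rpow_def_of_pos hMR, Real.exp_add, Real.exp_add,
      Real.exp_log hqR]
    have e1 : Real.exp (Real.log M * (1 - σ - c / (1 + κ) ^ 2)) =
        Real.exp (Real.log M * -σ) * Real.exp (Real.log M * (1 - c / (1 + κ) ^ 2)) := by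
      rw [← Real.exp_add]
      congr 1
      ring
    rw [e1]
    ring
  rw [h3]
  refine le_trans (Real.exp_le_exp.2 ?_) (le_of_eq Real.exp_zero)
  have h4 := h.pieceA hM1 (by linarith) hκu
  have h5 : Real.log M * (1 - σ - c / (1 + κ) ^ 2) ≤ Real.log M * (w - c / (1 + κ) ^ 2) :=
    mul_le_mul_of_nonneg_left (by linarith) hm0.le
  have h6 : Real.log q ≤ B * Real.log L := by
    have := Real.log_le_log hqR hq
    rwa [Real.log_pow] at this
  linarith

/-- a piece above the height -/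
theorem pieceB_le
    (hZ : ∀ (N N' : ℕ) (t : ℝ), 1 ≤ N → N ≤ N' → N' ≤ 2 * N → 1 ≤ |t| →
      ‖∑ n ∈ Finset.Ioc N N', χ (n : ZMod q) * nt t n‖ ≤
        q * (C₂ * (√|t| + N / √|t|) * (1 + Real.log N)))
    (h : Num B C c C₂ L u v w) (hq : (q : ℝ) ≤ L ^ B) (hq0 : q ≠ 0)
    (ht : Real.exp (L / (4 * u)) ≤ |t|)
    (hσ : 1 - w ≤ σ) {M M' : ℕ} (hM1 : 1 ≤ M) (hM2 : Real.log M ≤ 4 * L) (hMt : |t| ≤ M)
    (hMM : M ≤ M') (hM' : M' ≤ 2 * M) :
    ‖∑ n ∈ Ioc M M', χ (n : ZMod q) * (n : ℂ) ^ (-(⟨σ, t⟩ : ℂ))‖ ≤ 1 := by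
  have hL := h.L6
  have hu := h.u1
  have hL0 : 0 < L := by linarith
  have hMR : (0 : ℝ) < M := by exact_mod_cast (by omega : 0 < M)
  have hMR1 : (1 : ℝ) ≤ M := by exact_mod_cast hM1
  have hlM : 0 ≤ Real.log M := Real.log_nonneg hMR1
  have ht1 : 1 ≤ |t| := le_trans (Real.one_le_exp (by positivity)) ht
  have ht0 : 0 < |t| := by linarith
  have hst : 0 < √|t| := Real.sqrt_pos.2 ht0
  have hσ0 : 0 ≤ σ := by
    have := h.w_le
    linarith
  have hC2 : 0 < 2 * C₂ := by have := h.k1; linarith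
  have hqR : (0 : ℝ) < q := by exact_mod_cast Nat.pos_of_ne_zero hq0
  have hdm : √|t| ≤ M / √|t| := by
    rw [le_div_iff₀ hst, Real.mul_self_sqrt ht0.le]
    exact hMt
  rw [sum_eq]
  have h2 := abel' (a := fun n : ℕ => (n : ℝ) ^ (-σ))
    (z := fun n : ℕ => χ (n : ZMod q) * nt t n) (B := q * (2 * C₂ * (M / √|t|) * (1 + 4 * L)))
    hMM (by
      intro n hn
      have hn0 : (0 : ℝ) < n := by exact_mod_cast (by omega : 0 < n)
      refine Real.rpow_le_rpow_of_nonpos hn0 ?_ (by linarith)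
      push_cast
      linarith) (by positivity) (by
      intro k hk hk'
      refine (hZ M k t hM1 hk (by omega) ht1).trans ?_
      refine mul_le_mul_of_nonneg_left ?_ hqR.le
      have h5 : C₂ * (√|t| + M / √|t|) ≤ 2 * C₂ * (M / √|t|) := by
        have h6 : C₂ * (√|t| + M / √|t|) ≤ C₂ * (M / √|t| + M / √|t|) :=
          mul_le_mul_of_nonneg_left (by linarith) (by linarith)
        linarith
      exact mul_le_mul h5 (by linarith) (by linarith) (by positivity))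
  refine h2.trans ?_
  have h3 : (M : ℝ) ^ (-σ) * (q * (2 * C₂ * (M / √|t|) * (1 + 4 * L))) =
      Real.exp (Real.log q + Real.log (2 * C₂) + Real.log (1 + 4 * L) +
        Real.log M * (1 - σ) - Real.log √|t|) := by
    have h1L : 0 < 1 + 4 * L := by linarith
    rw [Real.rpow_def_of_pos hMR, Real.exp_sub, Real.exp_add, Real.exp_add, Real.exp_add,
      Real.exp_log hqR, Real.exp_log hC2, Real.exp_log h1L, Real.exp_log hst]
    have e1 : Real.exp (Real.log M * (1 - σ)) = Real.exp (Real.log M * -σ) * M := by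
      have e2 : Real.log M * (1 - σ) = Real.log M * -σ + Real.log M := by ring
      rw [e2, Real.exp_add, Real.exp_log hMR]
    rw [e1]
    ring
  show (M : ℝ) ^ (-σ) * (q * (2 * C₂ * (M / √|t|) * (1 + 4 * L))) ≤ 1
  rw [h3]
  refine le_trans (Real.exp_le_exp.2 ?_) (le_of_eq Real.exp_zero)
  have h4 := h.pieceB
  have h5 : Real.log M * (1 - σ) ≤ 4 * u := by
    have h6 : Real.log M * (1 - σ) ≤ Real.log M * w := mul_le_mul_of_nonneg_left (by linarith) hlM
    have h7 : Real.log M * w ≤ 4 * L * w := mul_le_mul_of_nonneg_right hM2 h.w0.le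
    have h8 : 4 * L * w = 4 * u := by rw [← h.hw]; ring
    linarith
  have h6 : Real.log q ≤ B * Real.log L := by
    have := Real.log_le_log hqR hq
    rwa [Real.log_pow] at this
  have h7 : L / (8 * u) ≤ Real.log √|t| := by
    rw [Real.log_sqrt ht0.le]
    have h8 : L / (4 * u) ≤ Real.log |t| := by
      rw [Real.le_log_iff_exp_le ht0]
      exact ht
    have h9 : L / (8 * u) = L / (4 * u) / 2 := by field_simp; norm_num
    linarith
  linarith

/-- all the pieces -/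
theorem pieces_le
    (hZ1 : ∀ (N N' : ℕ) (t κ : ℝ), 2 ≤ N → N ≤ N' → N' ≤ 2 * N → 1 ≤ κ → |t| = (N : ℝ) ^ κ →
      ‖∑ n ∈ Finset.Ioc N N', χ (n : ZMod q) * nt t n‖ ≤
        q * (Real.exp (C * (1 + κ) ^ C) * (N : ℝ) ^ (1 - c / (1 + κ) ^ 2 : ℝ)))
    (hZ2 : ∀ (N N' : ℕ) (t : ℝ), 1 ≤ N → N ≤ N' → N' ≤ 2 * N → 1 ≤ |t| →
      ‖∑ n ∈ Finset.Ioc N N', χ (n : ZMod q) * nt t n‖ ≤
        q * (C₂ * (√|t| + N / √|t|) * (1 + Real.log N)))
    (h : Num B C c C₂ L u v w) (hq : (q : ℝ) ≤ L ^ B) (hq0 : q ≠ 0)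
    (ht : |t| ≤ 3 * Real.exp L) (ht2 : Real.exp (L / (4 * u)) ≤ |t|) (hσ : 1 - w ≤ σ)
    {Y N : ℕ} (hY0 : 1 ≤ Y) (hY : L / u ≤ Real.log Y) (hN : Real.log N ≤ 4 * L) (hYN : Y ≤ N)
    (i : ℕ) :
    ‖∑ n ∈ Ioc Y (min (2 ^ i * Y) N), χ (n : ZMod q) * (n : ℂ) ^ (-(⟨σ, t⟩ : ℂ))‖ ≤ i := by
  induction i with
  | zero => simp [min_eq_left hYN]
  | succ i ih =>
    have hYi : Y ≤ 2 ^ i * Y := Nat.le_mul_of_pos_left _ (by positivity)
    have hP1 : Y ≤ min (2 ^ i * Y) N := le_min hYi hYN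
    have hP2 : min (2 ^ i * Y) N ≤ min (2 ^ (i + 1) * Y) N := by
      refine min_le_min_right _ ?_
      rw [pow_succ]
      nlinarith [hYi]
    have hP3 : min (2 ^ (i + 1) * Y) N ≤ 2 * min (2 ^ i * Y) N := by
      rw [pow_succ]
      rcases le_total (2 ^ i * Y) N with h1 | h1
      · rw [min_eq_left h1]
        refine (min_le_left _ _).trans (le_of_eq ?_)
        ring
      · rw [min_eq_right h1]
        exact (min_le_right _ _).trans (by omega)
    rw [← Finset.sum_Ioc_consecutive _ hP1 hP2]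
    have hY0R : (0 : ℝ) < Y := by exact_mod_cast (by omega : 0 < Y)
    have hPpos : (0 : ℝ) < ((min (2 ^ i * Y) N : ℕ) : ℝ) := by
      exact_mod_cast (lt_of_lt_of_le (by omega : 0 < Y) hP1)
    have h1 : ‖∑ n ∈ Ioc (min (2 ^ i * Y) N) (min (2 ^ (i + 1) * Y) N),
        χ (n : ZMod q) * (n : ℂ) ^ (-(⟨σ, t⟩ : ℂ))‖ ≤ 1 := by
      rcases le_total (((min (2 ^ i * Y) N : ℕ) : ℝ)) |t| with h1 | h1
      · exact pieceA_le hZ1 h hq hq0 ht hσ
          (hY.trans (Real.log_le_log hY0R (by exact_mod_cast hP1))) h1 hP2 hP3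
      · exact pieceB_le hZ2 h hq hq0 ht2 hσ (by omega)
          ((Real.log_le_log hPpos (by exact_mod_cast min_le_right _ _)).trans hN) h1 hP2 hP3
    push_cast
    exact (norm_add_le _ _).trans (add_le_add ih h1)

/-- the partial sum -/
theorem dsum_le
    (hZ1 : ∀ (N N' : ℕ) (t κ : ℝ), 2 ≤ N → N ≤ N' → N' ≤ 2 * N → 1 ≤ κ → |t| = (N : ℝ) ^ κ →
      ‖∑ n ∈ Finset.Ioc N N', χ (n : ZMod q) * nt t n‖ ≤
        q * (Real.exp (C * (1 + κ) ^ C) * (N : ℝ) ^ (1 - c / (1 + κ) ^ 2 : ℝ)))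
    (hZ2 : ∀ (N N' : ℕ) (t : ℝ), 1 ≤ N → N ≤ N' → N' ≤ 2 * N → 1 ≤ |t| →
      ‖∑ n ∈ Finset.Ioc N N', χ (n : ZMod q) * nt t n‖ ≤
        q * (C₂ * (√|t| + N / √|t|) * (1 + Real.log N)))
    (h : Num B C c C₂ L u v w) (hq : (q : ℝ) ≤ L ^ B) (hq0 : q ≠ 0)
    (ht : |t| ≤ 3 * Real.exp L) (hσ : 1 - w ≤ σ)
    {X : ℕ} (hX1 : 1 ≤ X) (hX : (X : ℝ) ≤ 2 * (q * (|t| + 2)) ^ 2) :
    ‖∑ n ∈ Icc 1 X, χ (n : ZMod q) * (n : ℂ) ^ (-(⟨σ, t⟩ : ℂ))‖ ≤ 20 * L := by
  have hL := h.L6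
  have hu := h.u1
  have hL0 : 0 < L := by linarith
  have hu0 : 0 < u := by linarith
  have hw := h.w0
  have hw2 := h.w_le
  have hlL := h.lL
  have hLu : L / u ≤ L := div_le_self hL0.le hu
  have hLu0 : 0 < L / u := by positivity
  have hqR : (0 : ℝ) < q := by exact_mod_cast Nat.pos_of_ne_zero hq0
  have hXR : (0 : ℝ) < X := by exact_mod_cast hX1
  have ht0 : 0 ≤ |t| := abs_nonneg t
  have hlq : Real.log q ≤ B * Real.log L := by
    have := Real.log_le_log hqR hq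
    rwa [Real.log_pow] at this
  set s : ℂ := ⟨σ, t⟩ with hs
  set Y : ℕ := ⌈Real.exp (L / u)⌉₊ with hYdef
  have hlogX : Real.log X ≤ 1 + 2 * (B * Real.log L) + 2 * Real.log (|t| + 2) := by
    have h1 := Real.log_le_log hXR hX
    rw [Real.log_mul (by norm_num) (by positivity), Real.log_pow,
      Real.log_mul hqR.ne' (by positivity)] at h1
    have h2 := Real.log_two_lt_d9
    push_cast at h1
    linarith
  have hlogX4 : Real.log X ≤ 4 * L := by
    have h1 : Real.log (|t| + 2) ≤ L + 2 := by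
      rw [Real.log_le_iff_le_exp (by positivity), Real.exp_add]
      have h2 : (5 : ℝ) ≤ Real.exp 2 := by
        have h3 := Real.exp_one_gt_d9
        have h4 : Real.exp 2 = Real.exp 1 * Real.exp 1 := by
          rw [← Real.exp_add]; norm_num
        rw [h4]
        nlinarith
      have h5 : 1 ≤ Real.exp L := Real.one_le_exp hL0.le
      nlinarith
    have h2 : (2 * (B * Real.log L) + 5) * u ≤ L := by
      apply h.gen
      have := h.lC
      have h3 : 0 ≤ (B : ℝ) * Real.log L := mul_nonneg (by positivity) hlL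
      have h4 : (0 : ℝ) ≤ (C : ℝ) * 3 ^ C := by positivity
      linarith
    have h3 : 2 * (B * Real.log L) + 5 ≤ (2 * (B * Real.log L) + 5) * u := by
      have h4 : 0 ≤ (B : ℝ) * Real.log L := mul_nonneg (by positivity) hlL
      exact le_mul_of_one_le_right (by linarith) hu
    linarith
  have hY1 : Real.exp (L / u) ≤ Y := Nat.le_ceil _
  have hY2 : (Y : ℝ) ≤ Real.exp (L / u + 1) := by
    have h1 : (Y : ℝ) < Real.exp (L / u) + 1 := Nat.ceil_lt_add_one (Real.exp_pos _).le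
    have h2 : (1 : ℝ) ≤ Real.exp (L / u) := Real.one_le_exp hLu0.le
    have h3 := Real.exp_one_gt_d9
    rw [Real.exp_add]
    nlinarith
  have hY0 : (0 : ℝ) < Y := lt_of_lt_of_le (Real.exp_pos _) hY1
  have hY1' : 1 ≤ Y := by
    have : 0 < Y := by exact_mod_cast hY0
    exact this
  have hlogY : L / u ≤ Real.log Y := by
    rw [← Real.log_exp (L / u)]
    exact Real.log_le_log (Real.exp_pos _) hY1
  have hlogY2 : Real.log Y ≤ L / u + 1 := by
    rw [← Real.log_exp (L / u + 1)]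
    exact Real.log_le_log hY0 hY2
  -- the powers
  have hpow : ∀ n : ℕ, 1 ≤ n → (n : ℝ) ^ (1 - σ) ≤ Real.exp (w * Real.log n) := by
    intro n hn
    have hn0 : (0 : ℝ) < n := by exact_mod_cast (by omega : 0 < n)
    have hn1 : (1 : ℝ) ≤ n := by exact_mod_cast hn
    rw [Real.rpow_def_of_pos hn0]
    refine Real.exp_le_exp.2 ?_
    rw [mul_comm w]
    exact mul_le_mul_of_nonneg_left (by linarith) (Real.log_nonneg hn1)
  -- the first part of the sum
  have hfirst : ∀ Y' : ℕ, Y' ≤ Y → ‖∑ n ∈ Ioc 0 Y', χ (n : ZMod q) * (n : ℂ) ^ (-s)‖ ≤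
      8 * (2 + L) := by
    intro Y' hY'
    have h1 : ∀ n ∈ Ioc 0 Y', ‖χ (n : ZMod q) * (n : ℂ) ^ (-s)‖ ≤ 8 * (1 / (n : ℝ)) := by
      intro n hn
      rw [Finset.mem_Ioc] at hn
      have hn0 : (0 : ℝ) < n := by exact_mod_cast hn.1
      rw [norm_mul]
      refine le_trans (mul_le_of_le_one_left (norm_nonneg _) (χ.norm_le_one _)) ?_
      rw [Complex.norm_natCast_cpow_of_pos hn.1]
      have e1 : (-s).re = (1 - σ) + (-1) := by
        rw [hs, Complex.neg_re]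
        ring
      rw [e1, Real.rpow_add hn0, Real.rpow_neg_one, ← one_div]
      refine mul_le_mul_of_nonneg_right ?_ (by positivity)
      refine (hpow n hn.1).trans ?_
      have h2 : w * Real.log n ≤ 2 := by
        have h3 : Real.log n ≤ L / u + 1 :=
          (Real.log_le_log hn0 (by exact_mod_cast hn.2.trans hY')).trans hlogY2
        have h4 : w * Real.log n ≤ w * (L / u + 1) := mul_le_mul_of_nonneg_left h3 hw.le
        have h5 : w * (L / u + 1) = 1 + w := by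
          rw [mul_add, mul_one, mul_div_assoc', h.hw, div_self hu0.ne']
        linarith
      have h3 : Real.exp (w * Real.log n) ≤ Real.exp 2 := Real.exp_le_exp.2 h2
      have h4 : Real.exp 2 ≤ 8 := by
        have h5 := Real.exp_one_lt_d9
        have h6 : Real.exp 2 = Real.exp 1 * Real.exp 1 := by
          rw [← Real.exp_add]; norm_num
        rw [h6]
        have h7 := Real.exp_pos 1
        nlinarith
      linarith
    refine (norm_sum_le_of_le _ h1).trans ?_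
    rw [← Finset.mul_sum]
    refine mul_le_mul_of_nonneg_left ?_ (by norm_num)
    have h2 : ∑ n ∈ Ioc 0 Y', 1 / (n : ℝ) ≤ (harmonic Y : ℝ) := by
      rw [harmonic_eq_sum_Icc]
      push_cast
      have h3 : ∑ n ∈ Ioc 0 Y', 1 / (n : ℝ) ≤ ∑ n ∈ Icc 1 Y, 1 / (n : ℝ) := by
        apply Finset.sum_le_sum_of_subset_of_nonneg
        · intro n hn
          rw [Finset.mem_Ioc] at hn
          rw [Finset.mem_Icc]
          omega
        · intro n _ _
          positivity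
      simpa [one_div] using h3
    have h3 := harmonic_le_one_add_log Y
    linarith
  have e0 : Icc 1 X = Ioc 0 X := by
    ext n
    rw [Finset.mem_Icc, Finset.mem_Ioc]
    omega
  rw [e0]
  rcases le_total X Y with hXY | hXY
  · refine (hfirst X hXY).trans ?_
    linarith
  · -- the height is large
    have hYX : Real.exp (L / u) ≤ X := hY1.trans (by exact_mod_cast hXY)
    have ht2 : Real.exp (L / (4 * u)) ≤ |t| := by
      have h1 : L / u ≤ 1 + 2 * (B * Real.log L) + 2 * Real.log (|t| + 2) := by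
        refine le_trans ?_ hlogX
        rw [← Real.log_exp (L / u)]
        exact Real.log_le_log (Real.exp_pos _) hYX
      have h2 : (4 * (B * Real.log L) + 10) * u ≤ L := by
        apply h.gen
        have := h.lC
        have h3 : 0 ≤ (B : ℝ) * Real.log L := mul_nonneg (by positivity) hlL
        have h4 : (0 : ℝ) ≤ (C : ℝ) * 3 ^ C := by positivity
        linarith
      have h3 : 4 * (B * Real.log L) + 10 ≤ L / u := by
        rw [le_div_iff₀ hu0]
        exact h2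
      have h4 : L / (4 * u) + 2 ≤ Real.log (|t| + 2) := by
        have h5 : L / (4 * u) = L / u / 4 := by field_simp
        rw [h5]
        linarith
      rw [Real.le_log_iff_exp_le (by positivity), Real.exp_add] at h4
      have h5 : (5 : ℝ) ≤ Real.exp 2 := by
        have h3 := Real.exp_one_gt_d9
        have h4 : Real.exp 2 = Real.exp 1 * Real.exp 1 := by
          rw [← Real.exp_add]; norm_num
        rw [h4]
        nlinarith
      have h6 : 1 ≤ Real.exp (L / (4 * u)) := Real.one_le_exp (by positivity)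
      nlinarith
    have hsecond : ‖∑ n ∈ Ioc Y X, χ (n : ZMod q) * (n : ℂ) ^ (-s)‖ ≤ 6 * L + 1 := by
      have h1 := pieces_le hZ1 hZ2 h hq hq0 ht ht2 hσ hY1' hlogY hlogX4 hXY (Nat.log 2 X + 1)
      have h2 : X ≤ 2 ^ (Nat.log 2 X + 1) * Y := by
        have h3 : X < 2 ^ (Nat.log 2 X + 1) := Nat.lt_pow_succ_log_self (by norm_num) X
        exact h3.le.trans (Nat.le_mul_of_pos_right _ (by omega))
      rw [min_eq_right h2] at h1
      refine h1.trans ?_
      push_cast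
      have h3 : (2 : ℝ) ^ (Nat.log 2 X) ≤ X := by
        exact_mod_cast Nat.pow_log_le_self 2 (by omega)
      have h4 := Real.log_le_log (by positivity) h3
      rw [Real.log_pow] at h4
      have h5 := Real.log_two_gt_d9
      have h6 : (0 : ℝ) ≤ (Nat.log 2 X : ℝ) := Nat.cast_nonneg _
      have h7 : (Nat.log 2 X : ℝ) * 0.69 ≤ 4 * L := by
        have h8 : (Nat.log 2 X : ℝ) * 0.69 ≤ (Nat.log 2 X : ℝ) * Real.log 2 :=
          mul_le_mul_of_nonneg_left (by linarith) h6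
        linarith
      linarith
    rw [← Finset.sum_Ioc_consecutive _ (Nat.zero_le Y) hXY]
    have h1 := hfirst Y le_rfl
    have h2 := norm_add_le (∑ n ∈ Ioc 0 Y, χ (n : ZMod q) * (n : ℂ) ^ (-s))
      (∑ n ∈ Ioc Y X, χ (n : ZMod q) * (n : ℂ) ^ (-s))
    linarith

end

open Pool.Agent.H307R2

/-- the tail integral -/
theorem tail_le {N : ℕ} (hN : 1 ≤ N) {E : ℝ → ℂ} {q : ℝ} (hq : 0 < q) (hE : ∀ t, ‖E t‖ ≤ q) {s : ℂ}
    (h1 : 1 / 2 ≤ s.re) (h3 : s.re ≤ 3) (hX : (q * (|s.im| + 2)) ^ 2 ≤ N) :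
    ‖s * TM N E s‖ ≤ 3 := by
  have hN0 : (0 : ℝ) < N := by exact_mod_cast hN
  have hN1 : (1 : ℝ) ≤ N := by exact_mod_cast hN
  have ht0 : 0 ≤ |s.im| := abs_nonneg _
  have hs : ‖s‖ ≤ 3 + |s.im| := by
    have h4 := Complex.norm_le_abs_re_add_abs_im s
    have h5 : |s.re| ≤ 3 := by rw [abs_le]; constructor <;> linarith
    linarith
  have h4 := TM_norm_le hN hE (s := s) (by linarith)
  have h5 : (N : ℝ) ^ (-s.re) ≤ (q * (|s.im| + 2))⁻¹ := by
    have h6 : (N : ℝ) ^ (-s.re) ≤ (N : ℝ) ^ (-(1 / 2) : ℝ) :=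
      Real.rpow_le_rpow_of_exponent_le hN1 (by linarith)
    refine h6.trans ?_
    rw [Real.rpow_neg hN0.le, ← Real.sqrt_eq_rpow]
    apply inv_anti₀ (by positivity)
    exact Real.le_sqrt_of_sq_le hX
  have h6 : (N : ℝ) ^ (-s.re) / s.re ≤ 2 * (q * (|s.im| + 2))⁻¹ := by
    rw [div_le_iff₀ (by linarith)]
    have h7 : 0 < (q * (|s.im| + 2))⁻¹ := by positivity
    nlinarith
  rw [norm_mul]
  calc ‖s‖ * ‖TM N E s‖ ≤ (3 + |s.im|) * (q * (2 * (q * (|s.im| + 2))⁻¹)) :=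
        mul_le_mul hs (h4.trans (mul_le_mul_of_nonneg_left h6 hq.le)) (norm_nonneg _) (by linarith)
    _ = 2 * (3 + |s.im|) / (|s.im| + 2) := by field_simp
    _ ≤ 3 := by
        rw [div_le_iff₀ (by linarith)]
        linarith

section

variable {B C : ℕ} {c C₂ : ℝ} {q : ℕ} {χ : DirichletCharacter ℂ q} {L u v w : ℝ}

theorem L_le [NeZero q]
    (hZ1 : ∀ (N N' : ℕ) (t κ : ℝ), 2 ≤ N → N ≤ N' → N' ≤ 2 * N → 1 ≤ κ → |t| = (N : ℝ) ^ κ →
      ‖∑ n ∈ Finset.Ioc N N', χ (n : ZMod q) * nt t n‖ ≤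
        q * (Real.exp (C * (1 + κ) ^ C) * (N : ℝ) ^ (1 - c / (1 + κ) ^ 2 : ℝ)))
    (hZ2 : ∀ (N N' : ℕ) (t : ℝ), 1 ≤ N → N ≤ N' → N' ≤ 2 * N → 1 ≤ |t| →
      ‖∑ n ∈ Finset.Ioc N N', χ (n : ZMod q) * nt t n‖ ≤
        q * (C₂ * (√|t| + N / √|t|) * (1 + Real.log N)))
    (h : Num B C c C₂ L u v w) (hq : (q : ℝ) ≤ L ^ B) (hχ : χ ≠ 1) {s : ℂ}
    (ht : |s.im| ≤ 3 * Real.exp L) (hσ : 1 - w ≤ s.re) (hσ3 : s.re ≤ 3) :
    ‖DirichletCharacter.LFunction χ s‖ ≤ 20 * L + 3 := by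
  have hq0 : q ≠ 0 := NeZero.ne q
  have hqR : (1 : ℝ) ≤ q := by exact_mod_cast Nat.pos_of_ne_zero hq0
  have hw := h.w_le
  have ht0 : 0 ≤ |s.im| := abs_nonneg _
  have h4 : (4 : ℝ) ≤ (q * (|s.im| + 2)) ^ 2 := by
    have : 2 ≤ q * (|s.im| + 2) := by nlinarith
    nlinarith
  set X : ℕ := ⌈(q * (|s.im| + 2)) ^ 2⌉₊ with hX
  have hX1 : (q * (|s.im| + 2)) ^ 2 ≤ X := Nat.le_ceil _
  have hX2 : (X : ℝ) ≤ 2 * (q * (|s.im| + 2)) ^ 2 := by
    have h1 : (X : ℝ) < (q * (|s.im| + 2)) ^ 2 + 1 := Nat.ceil_lt_add_one (by positivity)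
    linarith
  have hX3 : 1 ≤ X := by
    have : (1 : ℝ) ≤ X := by linarith
    exact_mod_cast this
  rw [LFunction_eq hχ hX3 (by linarith)]
  have h5 := dsum_le hZ1 hZ2 h hq hq0 ht hσ hX3 hX2
  have h6 := tail_le hX3 (by linarith : (0 : ℝ) < q) (Ech_norm_le hχ X) (s := s) (by linarith) hσ3 hX1
  exact (norm_add_le _ _).trans (add_le_add h5 h6)

theorem one_apply (n : ℕ) : (1 : DirichletCharacter ℂ 1) (n : ZMod 1) = 1 :=
  MulChar.one_apply (isUnit_of_subsingleton _)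

theorem zeta_le
    (hZ1 : ∀ (N N' : ℕ) (t κ : ℝ), 2 ≤ N → N ≤ N' → N' ≤ 2 * N → 1 ≤ κ → |t| = (N : ℝ) ^ κ →
      ‖∑ n ∈ Finset.Ioc N N', (1 : DirichletCharacter ℂ 1) (n : ZMod 1) * nt t n‖ ≤
        (1 : ℕ) * (Real.exp (C * (1 + κ) ^ C) * (N : ℝ) ^ (1 - c / (1 + κ) ^ 2 : ℝ)))
    (hZ2 : ∀ (N N' : ℕ) (t : ℝ), 1 ≤ N → N ≤ N' → N' ≤ 2 * N → 1 ≤ |t| →
      ‖∑ n ∈ Finset.Ioc N N', (1 : DirichletCharacter ℂ 1) (n : ZMod 1) * nt t n‖ ≤
        (1 : ℕ) * (C₂ * (√|t| + N / √|t|) * (1 + Real.log N)))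
    (h : Num B C c C₂ L u v w) {s : ℂ} (ht1 : 1 ≤ |s.im|)
    (ht : |s.im| ≤ 3 * Real.exp L) (hσ : 1 - w ≤ s.re) (hσ3 : s.re ≤ 3) :
    ‖riemannZeta s‖ ≤ 20 * L + 8 := by
  have hw := h.w_le
  have hL := h.L6
  have h4 : (4 : ℝ) ≤ (1 * (|s.im| + 2)) ^ 2 := by nlinarith
  set X : ℕ := ⌈(1 * (|s.im| + 2)) ^ 2⌉₊ with hX
  have hX1 : (1 * (|s.im| + 2)) ^ 2 ≤ (X : ℝ) := Nat.le_ceil _
  have hX2 : (X : ℝ) ≤ 2 * (1 * (|s.im| + 2)) ^ 2 := by
    have h1 : (X : ℝ) < (1 * (|s.im| + 2)) ^ 2 + 1 := Nat.ceil_lt_add_one (by positivity)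
    linarith
  have hX1R : (1 : ℝ) ≤ X := by linarith
  have hX3 : 1 ≤ X := by exact_mod_cast hX1R
  have hs1 : s ≠ 1 := by
    rintro rfl
    rw [Complex.one_im, abs_zero] at ht1
    linarith
  rw [zeta_eq hX3 (by linarith) hs1]
  have h5 := dsum_le (t := s.im) (σ := s.re) (X := X) hZ1 hZ2 h (by
    rw [Nat.cast_one]
    exact one_le_pow₀ (by linarith)) one_ne_zero ht hσ hX3 (by rw [Nat.cast_one]; exact hX2)
  simp only [one_apply, one_mul] at h5
  have h6 := tail_le hX3 one_pos Ez_norm_le (s := s) (by linarith) hσ3 hX1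
  have h7 : ‖(X : ℂ) ^ (1 - s) / (s - 1)‖ ≤ 5 := by
    have h8 : |s.im| ≤ ‖s - 1‖ := by
      have := Complex.abs_im_le_norm (s - 1)
      simpa using this
    rw [norm_div, Complex.norm_natCast_cpow_of_pos (by omega), div_le_iff₀ (by linarith)]
    have e1 : (1 - s).re = 1 - s.re := by simp
    rw [e1]
    have h9 : (X : ℝ) ^ (1 - s.re) ≤ (X : ℝ) ^ (1 / 2 : ℝ) :=
      Real.rpow_le_rpow_of_exponent_le hX1R (by linarith)
    have h10 : (X : ℝ) ^ (1 / 2 : ℝ) ≤ 5 * |s.im| := by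
      rw [← Real.sqrt_eq_rpow]
      apply Real.sqrt_le_iff.2
      refine ⟨by positivity, hX2.trans ?_⟩
      nlinarith
    linarith
  have h8 := norm_add_le (∑ n ∈ Icc 1 X, (n : ℂ) ^ (-s)) ((X : ℂ) ^ (1 - s) / (s - 1))
  have h9 := norm_add_le (∑ n ∈ Icc 1 X, (n : ℂ) ^ (-s) + (X : ℂ) ^ (1 - s) / (s - 1))
    (s * TM X Ez s)
  have h10 : ‖∑ n ∈ Icc 1 X, (n : ℂ) ^ (-s)‖ ≤ 20 * L := h5
  linarith

end

/-- the principal character -/
theorem triv_le {q : ℕ} [NeZero q] {s : ℂ} (hs : s ≠ 1) (h0 : 0 ≤ s.re) :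
    ‖DirichletCharacter.LFunction (1 : DirichletCharacter ℂ q) s‖ ≤ q * ‖riemannZeta s‖ := by
  have h1 : DirichletCharacter.LFunction (1 : DirichletCharacter ℂ q) s =
      (∏ p ∈ q.primeFactors, (1 - (p : ℂ) ^ (-s))) * riemannZeta s :=
    DirichletCharacter.LFunctionTrivChar_eq_mul_riemannZeta hs
  rw [h1, norm_mul]
  apply mul_le_mul_of_nonneg_right _ (norm_nonneg _)
  rw [norm_prod]
  have h2 : ∏ p ∈ q.primeFactors, ‖1 - (p : ℂ) ^ (-s)‖ ≤ ∏ p ∈ q.primeFactors, (p : ℝ) := by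
    apply prod_le_prod (fun p _ => norm_nonneg _)
    intro p hp
    have hp := Nat.prime_of_mem_primeFactors hp
    have h3 : ‖(p : ℂ) ^ (-s)‖ ≤ 1 := by
      rw [Complex.norm_natCast_cpow_of_pos hp.pos, Complex.neg_re]
      apply Real.rpow_le_one_of_one_le_of_nonpos _ (by linarith)
      exact_mod_cast hp.one_lt.le
    have h4 : (2 : ℝ) ≤ p := by exact_mod_cast hp.two_le
    have h5 := norm_sub_le (1 : ℂ) ((p : ℂ) ^ (-s))
    rw [norm_one] at h5
    linarith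
  refine h2.trans ?_
  have h3 : ∏ p ∈ q.primeFactors, p ≤ q :=
    Nat.le_of_dvd (Nat.pos_of_ne_zero (NeZero.ne q)) (Nat.prod_primeFactors_dvd q)
  have h4 : ((∏ p ∈ q.primeFactors, p : ℕ) : ℝ) ≤ (q : ℝ) := Nat.cast_le.2 h3
  rwa [Nat.cast_prod] at h4

/-- the numerical conditions hold for large `L` -/
theorem ex_num (B C : ℕ) {c C₂ : ℝ} (hc : 0 < c) (hc1 : c ≤ 1) (hC₂ : 1 ≤ C₂) :
    ∃ L₀ : ℝ, 1 ≤ L₀ ∧ ∀ L : ℝ, L₀ ≤ L →
      Num B C c C₂ L (L ^ (1 / (2 * ((C : ℝ) + 4)))) (√L) (L ^ (1 / (2 * ((C : ℝ) + 4)) - 1)) := by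
  set A : ℝ := 1000 + 18 * ((C : ℝ) * 3 ^ C) + 8 * Real.log (2 * C₂) with hA
  set D : ℝ := 18 * (B : ℝ) + 100 with hD
  have hD0 : 0 < D := by positivity
  have hlo := (isLittleO_log_rpow_atTop (show (0 : ℝ) < 1 / 2 by norm_num)).bound
    (show 0 < c / (2 * D) by positivity)
  have hA2 : ∀ᶠ L : ℝ in atTop, A ≤ c / 2 * √L := by
    filter_upwards [eventually_ge_atTop ((|A| * 2 / c) ^ 2)] with L hL
    have h1 : |A| * 2 / c ≤ √L := Real.le_sqrt_of_sq_le hL
    rw [div_le_iff₀ hc] at h1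
    have := le_abs_self A
    linarith
  obtain ⟨L₁, hL₁⟩ := eventually_atTop.1 (hlo.and hA2)
  refine ⟨max L₁ 1, le_max_right _ _, fun L hL => ?_⟩
  have hL1 : 1 ≤ L := (le_max_right _ _).trans hL
  have hL0 : 0 < L := by linarith
  obtain ⟨h1, h2⟩ := hL₁ L ((le_max_left _ _).trans hL)
  have hlL : 0 ≤ Real.log L := Real.log_nonneg hL1
  rw [Real.norm_of_nonneg hlL, Real.norm_of_nonneg (by positivity), ← Real.sqrt_eq_rpow] at h1
  refine ⟨hc, hc1, hC₂, Real.one_le_rpow hL1 (by positivity), ?_, Real.sq_sqrt hL0.le, ?_, hlL, ?_⟩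
  · rw [← Real.rpow_natCast, ← Real.rpow_mul hL0.le, Real.sqrt_eq_rpow]
    congr 1
    push_cast
    field_simp
  · rw [← Real.rpow_add_one hL0.ne']
    congr 1
    ring
  · have h3 : D * Real.log L ≤ c / 2 * √L := by
      have h4 := mul_le_mul_of_nonneg_left h1 hD0.le
      have h5 : D * (c / (2 * D) * √L) = c / 2 * √L := by field_simp
      linarith
    linarith

end Pool.Agent.L7h50.BW.Lup

namespace Pool.Agent.L7h50.BW

open Pool.Agent.Q236.CR

/-- (LUP) -/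
theorem s_LUP (hCHR : S_CHR) : S_LUP := by
  intro B
  obtain ⟨⟨C, c, hc, hc1, hZ1⟩, C₂, hC₂, hZ2⟩ := hCHR
  obtain ⟨L₀, hL₀, hnum⟩ := Lup.ex_num B C hc (hc1.trans (by norm_num)) hC₂
  have hC0 : (0 : ℝ) ≤ C := Nat.cast_nonneg C
  refine ⟨1 / (2 * ((C : ℝ) + 4)), ((B + 2 : ℕ) : ℝ), max (Real.exp L₀) 3, by positivity, ?_, ?_,
    le_max_right _ _, ?_⟩
  · rw [div_lt_one (by positivity)]
    linarith
  · push_cast
    linarith [(Nat.cast_nonneg B : (0 : ℝ) ≤ B)]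
  · intro T hT q hqN hq χ s hs him hre hre3
    have hT3 : 3 ≤ T := (le_max_right _ _).trans hT
    have hT0 : 0 < T := by linarith
    obtain ⟨L, hLd⟩ : ∃ L, L = Real.log T := ⟨_, rfl⟩
    have hTL : T = Real.exp L := by rw [hLd, Real.exp_log hT0]
    rw [← hLd] at hq hre ⊢
    have hL : L₀ ≤ L := by
      rw [hLd, Real.le_log_iff_exp_le hT0]
      exact (le_max_left _ _).trans hT
    have h := hnum L hL
    have hL6 := h.L6
    rw [hTL] at him
    rw [Real.rpow_natCast]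
    have hLB : 1 ≤ L ^ B := one_le_pow₀ (by linarith)
    by_cases hχ : χ = 1
    · subst hχ
      have him1 : 1 ≤ |s.im| := hs.resolve_left (fun h => h rfl)
      have hs1 : s ≠ 1 := by
        rintro rfl
        rw [Complex.one_im, abs_zero] at him1
        linarith
      have h1 := Lup.zeta_le (fun N N' t κ => hZ1 1 inferInstance 1 N N' t κ)
        (fun N N' t => hZ2 1 inferInstance 1 N N' t) h him1 him hre hre3
      have h2 := Lup.triv_le (q := q) hs1 (by have := h.w_le; linarith)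
      calc _ ≤ q * ‖riemannZeta s‖ := h2
        _ ≤ L ^ B * (20 * L + 8) := mul_le_mul hq h1 (norm_nonneg _) (by linarith)
        _ ≤ L ^ B * L ^ 2 := mul_le_mul_of_nonneg_left (by nlinarith) (by linarith)
        _ = L ^ (B + 2) := by rw [pow_add]
    · have h1 := Lup.L_le (fun N N' t κ => hZ1 q hqN χ N N' t κ)
        (fun N N' t => hZ2 q hqN χ N N' t) h hq hχ him hre hre3
      calc _ ≤ 20 * L + 3 := h1
        _ ≤ 1 * L ^ 2 := by nlinarith
        _ ≤ L ^ B * L ^ 2 := mul_le_mul_of_nonneg_right hLB (by positivity)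
        _ = L ^ (B + 2) := by rw [pow_add]

end Pool.Agent.L7h50.BW
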