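import Pool.Agent.Q236.CR.Stm
import Pool.Agent.Y333.VK.ZfA

set_option autoImplicit false

/-!
Project BW (helper88), statement (LZF): zero free region and bound for the inverse of Dirichlet `L`-functions.
Adaptation of `Pool/Agent/Y333/VK/ZfA.lean` and `Zf.lean`.
-/

open Complex Filter Topology Set MeasureTheory Metric

namespace Pool.Agent.L7h50.BW.Lzf

variable {q : ℕ} [NeZero q]

/-- bound for the inverse to the right of `1` -/
lemma inv_le (χ : DirichletCharacter ℂ q) {w : ℂ} (hw : 1 < w.re) :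
    ‖(χ.LFunction w)⁻¹‖ ≤ 1 + 1 / (w.re - 1) := by
  have h1 := DirichletCharacter.LSeries.mul_mu_eq_one χ hw
  rw [← DirichletCharacter.LFunction_eq_LSeries χ hw] at h1
  have h2 := inv_eq_of_mul_eq_one_right h1
  rw [h2, LSeries]
  refine le_trans ?_ (Pool.Agent.Y333.VK.zeta_le hw)
  have hsum : Summable (fun n : ℕ => (n : ℝ) ^ (-w.re)) :=
    Real.summable_nat_rpow.mpr (by linarith)
  refine tsum_of_norm_bounded hsum.hasSum fun n => ?_
  rcases Nat.eq_zero_or_pos n with rfl | hn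
  · rw [LSeries.term_zero, norm_zero]
    exact Real.rpow_nonneg (Nat.cast_nonneg 0) _
  · rw [LSeries.term_of_ne_zero hn.ne', norm_div, Complex.norm_natCast_cpow_of_pos hn,
      Real.rpow_neg (Nat.cast_nonneg n), ← one_div]
    apply div_le_div_of_nonneg_right _ (Real.rpow_nonneg (Nat.cast_nonneg n) _)
    rw [Pi.mul_apply, norm_mul]
    have h3 : ‖χ (n : ZMod q)‖ ≤ 1 := χ.norm_le_one _
    have h4 : ‖((ArithmeticFunction.moebius n : ℤ) : ℂ)‖ ≤ 1 := by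
      rw [Complex.norm_intCast]
      exact_mod_cast ArithmeticFunction.abs_moebius_le_one
    exact mul_le_one₀ h3 (norm_nonneg _) h4

/-- the logarithmic derivative to the right of `1` -/
lemma ld_eq (χ : DirichletCharacter ℂ q) {s : ℂ} (hs : 1 < s.re) :
    LSeries (fun n => χ (n : ZMod q) * (ArithmeticFunction.vonMangoldt n : ℂ)) s =
      -(deriv χ.LFunction s / χ.LFunction s) := by
  have h1 := DirichletCharacter.LSeries_twist_vonMangoldt_eq χ hs
  rw [← DirichletCharacter.LFunction_eq_LSeries χ hs,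
    ← DirichletCharacter.deriv_LFunction_eq_deriv_LSeries χ hs] at h1
  rw [neg_div] at h1
  exact h1

lemma summ (χ : DirichletCharacter ℂ q) {s : ℂ} (hs : 1 < s.re) :
    LSeriesSummable (fun n => χ (n : ZMod q) * (ArithmeticFunction.vonMangoldt n : ℂ)) s :=
  DirichletCharacter.LSeriesSummable_twist_vonMangoldt χ hs

/-- the 3-4-1 inequality -/
lemma three_four_one (χ : DirichletCharacter ℂ q) {σ : ℝ} (hσ : 1 < σ) (t : ℝ) :
    0 ≤ 3 * (LSeries (fun n => (ArithmeticFunction.vonMangoldt n : ℂ)) (⟨σ, 0⟩ : ℂ)).re +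
      4 * (LSeries (fun n => χ (n : ZMod q) * (ArithmeticFunction.vonMangoldt n : ℂ))
        (⟨σ, t⟩ : ℂ)).re +
      (LSeries (fun n => (χ ^ 2) (n : ZMod q) * (ArithmeticFunction.vonMangoldt n : ℂ))
        (⟨σ, 2 * t⟩ : ℂ)).re := by
  have hs0 : LSeriesSummable (fun n => (ArithmeticFunction.vonMangoldt n : ℂ)) (⟨σ, 0⟩ : ℂ) :=
    ArithmeticFunction.LSeriesSummable_vonMangoldt (by simpa using hσ)
  have hs1 := summ χ (s := (⟨σ, t⟩ : ℂ)) (by simpa using hσ)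
  have hs2 := summ (χ ^ 2) (s := (⟨σ, 2 * t⟩ : ℂ)) (by simpa using hσ)
  unfold LSeries
  rw [Complex.re_tsum hs0, Complex.re_tsum hs1, Complex.re_tsum hs2]
  have h0 := (Complex.reCLM.summable hs0)
  have h1 := (Complex.reCLM.summable hs1)
  have h2 := (Complex.reCLM.summable hs2)
  simp only [Complex.reCLM_apply] at h0 h1 h2
  rw [← tsum_mul_left, ← tsum_mul_left, ← Summable.tsum_add (h0.mul_left 3) (h1.mul_left 4),
    ← Summable.tsum_add ((h0.mul_left 3).add (h1.mul_left 4)) h2]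
  refine tsum_nonneg fun n => ?_
  rcases eq_or_ne n 0 with rfl | hn
  · simp
  have hn0 : (n : ℂ) ≠ 0 := by exact_mod_cast hn
  have hnr : (0 : ℝ) < n := by exact_mod_cast Nat.pos_of_ne_zero hn
  set w : ℂ := cexp (-(((t * Real.log n : ℝ) : ℂ) * I)) with hw
  have key : ∀ (k : ℕ) (a : ℂ), a * (ArithmeticFunction.vonMangoldt n : ℂ) /
      (n : ℂ) ^ (⟨σ, k * t⟩ : ℂ) =
      ((ArithmeticFunction.vonMangoldt n / (n : ℝ) ^ σ : ℝ) : ℂ) * (a * w ^ k) := by
    intro k a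
    have e : (⟨σ, k * t⟩ : ℂ) = (σ : ℂ) + ((k * t : ℝ) : ℂ) * I := by
      apply Complex.ext <;> simp
    rw [e, Complex.cpow_add _ _ hn0]
    have e2 : (n : ℂ) ^ (((k * t : ℝ) : ℂ) * I) = (w ^ k)⁻¹ := by
      rw [hw, ← Complex.exp_nat_mul, ← Complex.exp_neg, Complex.cpow_def_of_ne_zero hn0,
        ← Complex.natCast_log]
      congr 1
      push_cast
      ring
    rw [e2]
    have e3 : (n : ℂ) ^ (σ : ℂ) = (((n : ℝ) ^ σ : ℝ) : ℂ) := by
      rw [Complex.ofReal_cpow hnr.le]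
      simp
    rw [e3]
    push_cast
    rw [← div_div, div_inv_eq_mul]
    ring
  rw [LSeries.term_of_ne_zero hn, LSeries.term_of_ne_zero hn, LSeries.term_of_ne_zero hn]
  have k0 := key 0 1
  have k1 := key 1 (χ (n : ZMod q))
  have k2 := key 2 ((χ ^ 2) (n : ZMod q))
  simp only [Nat.cast_zero, zero_mul, pow_zero, mul_one, Nat.cast_one, one_mul, pow_one,
    Nat.cast_ofNat] at k0 k1 k2
  rw [k0, k1, k2]
  have hsq : (χ ^ 2) (n : ZMod q) = χ (n : ZMod q) ^ 2 := by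
    rw [MulChar.pow_apply' χ (by norm_num)]
  rw [hsq, ← mul_pow]
  set z : ℂ := χ (n : ZMod q) * w with hz
  set A : ℝ := ArithmeticFunction.vonMangoldt n / (n : ℝ) ^ σ with hA
  have hA0 : 0 ≤ A := div_nonneg ArithmeticFunction.vonMangoldt_nonneg (by positivity)
  have hw1 : z.re ^ 2 + z.im ^ 2 ≤ 1 := by
    have h3 : ‖w‖ = 1 := by
      rw [hw, ← neg_mul, ← Complex.ofReal_neg, Complex.norm_exp_ofReal_mul_I]
    have h3' : ‖z‖ ≤ 1 := by
      rw [hz, norm_mul, h3, mul_one]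
      exact χ.norm_le_one _
    have h4 := Complex.sq_norm z
    rw [Complex.normSq_apply] at h4
    have h5 : ‖z‖ ^ 2 ≤ 1 := by
      have := norm_nonneg z
      nlinarith
    nlinarith
  have e4 : ((A : ℂ)).re = A := Complex.ofReal_re A
  have e5 : ((A : ℂ) * z).re = A * z.re := by simp
  have e6 : ((A : ℂ) * z ^ 2).re = A * (z.re ^ 2 - z.im ^ 2) := by
    rw [pow_two, Complex.re_ofReal_mul, Complex.mul_re]
    ring
  rw [e4, e5, e6]
  have h7 : 0 ≤ 3 + 4 * z.re + (z.re ^ 2 - z.im ^ 2) := by nlinarith [sq_nonneg (1 + z.re)]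
  have h8 := mul_nonneg hA0 h7
  linarith

/-- the upper bound -/
def UB (q : ℕ) [NeZero q] (T w M : ℝ) : Prop := ∀ χ : DirichletCharacter ℂ q, ∀ s : ℂ,
  (χ ≠ 1 ∨ 1 ≤ |s.im|) → |s.im| ≤ 3 * T → 1 - 16 * w ≤ s.re → s.re ≤ 3 → ‖χ.LFunction s‖ ≤ M

lemma ne_one_of {s : ℂ} (h : 1 ≤ |s.im|) : s ≠ 1 := by
  rintro rfl
  rw [Complex.one_im, abs_zero] at h
  linarith

lemma re_lt_one {χ : DirichletCharacter ℂ q} {ρ : ℂ} (h : χ.LFunction ρ = 0) (h1 : 1 ≤ |ρ.im|) :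
    ρ.re < 1 := by
  by_contra hcon
  exact DirichletCharacter.LFunction_ne_zero_of_one_le_re χ (Or.inr (ne_one_of h1))
    (not_lt.1 hcon) h

/-- the local lemma -/
lemma loc {T w M : ℝ} (hT : 3 ≤ T) (hw0 : 0 < w) (hw1 : w ≤ 1 / 32) (hM : 1 ≤ M) (h : UB q T w M)
    (χ : DirichletCharacter ℂ q) {τ η : ℝ} (hτ1 : 19 / 10 ≤ |τ|) (hτ2 : |τ| ≤ 2 * T + 2)
    (hη0 : 0 < η) (hη : η ≤ w) :
    (-(12 * (Real.log (2 * M / η) + 1) / w) ≤
      (deriv χ.LFunction ⟨1 + η, τ⟩ / χ.LFunction ⟨1 + η, τ⟩).re) ∧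
    (∀ ρ ∈ closedBall (⟨1 + η, τ⟩ : ℂ) (2 * w), χ.LFunction ρ = 0 →
      (1 / ((⟨1 + η, τ⟩ : ℂ) - ρ)).re -
        12 * (Real.log (2 * M / η) + 1) / w ≤
        (deriv χ.LFunction ⟨1 + η, τ⟩ / χ.LFunction ⟨1 + η, τ⟩).re) ∧
    (∀ z ∈ closedBall (⟨1 + η, τ⟩ : ℂ) w, ∀ d : ℝ, 0 < d →
      (∀ ρ ∈ closedBall (⟨1 + η, τ⟩ : ℂ) (2 * w), χ.LFunction ρ = 0 → d ≤ ‖z - ρ‖) →
      χ.LFunction z ≠ 0 ∧ ‖deriv χ.LFunction z / χ.LFunction z‖ ≤
        Real.log (2 * M / η) * (3 / 2) / d +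
          12 * (Real.log (2 * M / η) + 1) / w) := by
  set c : ℂ := ⟨1 + η, τ⟩ with hc
  have hcr : c.re = 1 + η := rfl
  have hci : c.im = τ := rfl
  have him : ∀ z ∈ closedBall c (4 * w), 1 ≤ |z.im| ∧ |z.im| ≤ 3 * T ∧ 1 - 16 * w ≤ z.re ∧
      z.re ≤ 3 := by
    intro z hz
    rw [mem_closedBall, dist_eq_norm] at hz
    have h1 := (abs_re_le_norm (z - c)).trans hz
    have h2 := (abs_im_le_norm (z - c)).trans hz
    rw [sub_re, hcr, abs_le] at h1
    rw [sub_im, hci] at h2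
    have h3 : |τ| - |z.im| ≤ |z.im - τ| := by
      rw [abs_sub_comm]
      exact abs_sub_abs_le_abs_sub _ _
    have h4 : |z.im| - |τ| ≤ |z.im - τ| := abs_sub_abs_le_abs_sub _ _
    exact ⟨by linarith, by linarith, by linarith [h1.1], by linarith [h1.2]⟩
  have hball : ∀ z ∈ closedBall c (4 * w), ‖χ.LFunction z‖ ≤ M := by
    intro z hz
    obtain ⟨h1, h2, h3, h4⟩ := him z hz
    exact h χ z (Or.inr h1) h2 h3 h4
  have han : AnalyticOnNhd ℂ χ.LFunction (closedBall c (4 * w)) := by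
    have h1 : DifferentiableOn ℂ χ.LFunction {1}ᶜ := fun z hz =>
      (DirichletCharacter.differentiableAt_LFunction χ z (Or.inl hz)).differentiableWithinAt
    exact (h1.analyticOnNhd isOpen_compl_singleton).mono fun z hz => ne_one_of (him z hz).1
  have hcm : c ∈ closedBall c (4 * w) := mem_closedBall_self (by linarith)
  have hcb := hball c hcm
  have hcre : 1 < c.re := by rw [hcr]; linarith
  have hc0 : χ.LFunction c ≠ 0 :=
    DirichletCharacter.LFunction_ne_zero_of_one_le_re χ (Or.inr (ne_one_of (him c hcm).1)) hcre.le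
  have hcpos : 0 < ‖χ.LFunction c‖ := norm_pos_iff.2 hc0
  have hinv : ‖χ.LFunction c‖⁻¹ ≤ 2 / η := by
    have h1 := inv_le χ hcre
    rw [norm_inv] at h1
    have h2 : c.re - 1 = η := by rw [hcr]; ring
    rw [h2] at h1
    refine h1.trans ?_
    have h3 : 1 ≤ 1 / η := by rw [le_div_iff₀ hη0]; linarith
    have h4 : 2 / η = 1 / η + 1 / η := by ring
    linarith
  have hlog : Real.log (M / ‖χ.LFunction c‖) ≤ Real.log (2 * M / η) := by
    apply Real.log_le_log (by positivity)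
    calc M / ‖χ.LFunction c‖ = M * ‖χ.LFunction c‖⁻¹ := div_eq_mul_inv _ _
      _ ≤ M * (2 / η) := mul_le_mul_of_nonneg_left hinv (by positivity)
      _ = 2 * M / η := by ring
  have hlog0 : 0 ≤ Real.log (M / ‖χ.LFunction c‖) :=
    Real.log_nonneg (by rw [le_div_iff₀ hcpos]; linarith)
  have hq : Real.log (2 * w / (4 * w - 2 * w)) = 0 := by
    have h1 : 4 * w - 2 * w = 2 * w := by ring
    rw [h1, div_self (by positivity), Real.log_one]
  have herr : 2 * (Real.log (M / ‖χ.LFunction c‖) +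
      Real.log (M / ‖χ.LFunction c‖) / Real.log (4 * w / (2 * w)) *
      Real.log (2 * w / (4 * w - 2 * w)) + 1) * (3 / 2 * w) / (2 * w - 3 / 2 * w) /
      (3 / 2 * w - w) ≤ 12 * (Real.log (2 * M / η) + 1) / w := by
    rw [hq]
    have e1 : 2 * w - 3 / 2 * w = w / 2 := by ring
    have e2 : 3 / 2 * w - w = w / 2 := by ring
    rw [e1, e2, mul_zero, add_zero]
    have e3 : 2 * (Real.log (M / ‖χ.LFunction c‖) + 1) * (3 / 2 * w) / (w / 2) / (w / 2) =
        12 * (Real.log (M / ‖χ.LFunction c‖) + 1) / w := by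
      field_simp
      ring
    rw [e3]
    gcongr
  have hzre : ∀ ρ ∈ closedBall c (2 * w), χ.LFunction ρ = 0 → ρ.re < 1 := by
    intro ρ hρ h0
    exact re_lt_one h0 (him ρ (closedBall_subset_closedBall (by linarith) hρ)).1
  obtain ⟨s, hs1, hs2, hs3⟩ := Pool.Agent.W66.landau_re (f := χ.LFunction) (c := c) (r := 2 * w)
    (r1 := 3 / 2 * w) (r2 := w) (R := 4 * w) (M := M) hw0 (by linarith) (by linarith)
    (by linarith) (by linarith) hM hcb han hc0 hball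
  have hcne : ∀ ρ ∈ s, c ≠ ρ := by
    intro ρ hρ he
    have h1 := hzre ρ (hs1 ρ hρ).1 (hs1 ρ hρ).2
    rw [← he] at h1
    linarith
  have h3 := (hs3 c (mem_closedBall_self hw0.le) hcne).trans herr
  obtain ⟨j1, j2⟩ := Pool.Agent.Y333.VK.sum_re hcre s fun ρ hρ => hzre ρ (hs1 ρ hρ).1 (hs1 ρ hρ).2
  have h4 := (Complex.abs_re_le_norm _).trans h3
  rw [sub_re, abs_le] at h4
  refine ⟨by linarith [h4.1], fun ρ hρ hρ0 => ?_, fun z hz d hd hdist => ?_⟩
  · have := j2 ρ (hs2 ρ hρ hρ0)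
    linarith [h4.1]
  · obtain ⟨h5, h6⟩ := H370.Loc.landau (f := χ.LFunction) (c := c) (r := 2 * w)
      (r1 := 3 / 2 * w) (r2 := w) (R := 4 * w) (M := M) hw0 (by linarith) (by linarith)
      (by linarith) (by linarith) hM hcb han hc0 hball z hz d hd hdist
    refine ⟨h5, h6.trans (add_le_add ?_ herr)⟩
    have e1 : 4 * w / (2 * w) = 2 := by
      field_simp
      norm_num
    rw [e1]
    have hl2 : 2 / 3 ≤ Real.log 2 := by
      have := Real.log_two_gt_d9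
      linarith
    have e2 : Real.log (M / ‖χ.LFunction c‖) / Real.log 2 ≤
        Real.log (2 * M / η) * (3 / 2) := by
      rw [div_le_iff₀ (by linarith)]
      have h7 : 0 ≤ Real.log (2 * M / η) := hlog0.trans hlog
      nlinarith
    gcongr

/-- no zeros near the line -/
lemma zfree : ∃ C0 : ℝ, 0 < C0 ∧ ∀ (q : ℕ) (_ : NeZero q) (T w M Q : ℝ), 3 ≤ T → 0 < w →
    w ≤ 1 / 32 → 1 ≤ M → 1 ≤ Q → C0 ≤ Q → Real.log (2 * M / (w / (602 * Q))) + 1 ≤ 5 * Q →
    UB q T w M → ∀ (χ : DirichletCharacter ℂ q) (ρ : ℂ), χ.LFunction ρ = 0 → 19 / 10 ≤ |ρ.im| →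
      |ρ.im| ≤ T + 1 → ρ.re ≤ 1 - w / (4214 * Q) := by
  obtain ⟨K0, hK0, hD⟩ := Pool.Agent.W66.D_re
  have hell := Pool.Agent.W66.one_le_ell 0
  refine ⟨3 * (K0 * Pool.Agent.W66.ell 0), by positivity, ?_⟩
  intro q _ T w M Q hT hw0 hw1 hM hQ1 hQ3 hlam hUB χ ρ hρ ht htT
  have hre1 : ρ.re < 1 := re_lt_one hρ (by linarith)
  generalize ht' : ρ.im = t at *
  have hloc := fun (χ' : DirichletCharacter ℂ q) (τ : ℝ) (η : ℝ) =>
    @loc q _ T w M hT hw0 hw1 hM hUB χ' τ η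
  set η : ℝ := w / (602 * Q) with hη
  have hQ0 : 0 < Q := by linarith
  have hη0 : 0 < η := by positivity
  have hηw : η ≤ w := div_le_self hw0.le (by linarith)
  by_cases hre : ρ.re < 1 - w / 2
  · have h1 : w / (4214 * Q) ≤ w / 2 := div_le_div_of_nonneg_left hw0.le (by norm_num) (by linarith)
    linarith
  rw [not_lt] at hre
  have h341 := three_four_one χ (σ := 1 + η) (by linarith) t
  have hcr : ∀ v : ℝ, 1 < (⟨1 + η, v⟩ : ℂ).re := fun v => by
    show 1 < 1 + η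
    linarith
  rw [Pool.Agent.W66.LSeries_eq_DD (hcr 0), ld_eq χ (hcr t), ld_eq (χ ^ 2) (hcr (2 * t)),
    sub_re, neg_re, neg_re] at h341
  have d0 := (hD 0 (1 + η) (by linarith) (by linarith)).1
  change _ ≤ (Pool.Agent.W66.DD _).re at d0
  have hball : ρ ∈ closedBall (⟨1 + η, t⟩ : ℂ) (2 * w) := by
    rw [mem_closedBall, dist_eq_norm]
    have e : ρ - ⟨1 + η, t⟩ = ((ρ.re - (1 + η) : ℝ) : ℂ) := by
      apply Complex.ext <;> simp [ht']
    rw [e, Complex.norm_real, Real.norm_eq_abs, abs_le]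
    constructor <;> linarith
  have d1 := (hloc χ t η ht (by linarith) hη0 hηw).2.1 ρ hball hρ
  have h2t : |2 * t| = 2 * |t| := by rw [abs_mul]; norm_num
  have d2 := (hloc (χ ^ 2) (2 * t) η (by rw [h2t]; linarith) (by rw [h2t]; linarith) hη0 hηw).1
  have e0 : (1 / ((⟨1 + η, 0⟩ : ℂ) - 1)).re = 1 / η := by
    have e : (⟨1 + η, 0⟩ : ℂ) - 1 = ((η : ℝ) : ℂ) := by
      apply Complex.ext <;> simp
    rw [e, ← Complex.ofReal_one, ← Complex.ofReal_div, Complex.ofReal_re]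
  have e1 : (1 / ((⟨1 + η, t⟩ : ℂ) - ρ)).re = 1 / (1 + η - ρ.re) := by
    have e : (⟨1 + η, t⟩ : ℂ) - ρ = ((1 + η - ρ.re : ℝ) : ℂ) := by
      apply Complex.ext <;> simp [ht']
    rw [e, ← Complex.ofReal_one, ← Complex.ofReal_div, Complex.ofReal_re]
  rw [e1] at d1
  rw [e0] at h341
  have hE : 12 * (Real.log (2 * M / η) + 1) / w ≤ 60 * (Q / w) := by
    calc 12 * (Real.log (2 * M / η) + 1) / w ≤ 12 * (5 * Q) / w := by gcongr
      _ = 60 * (Q / w) := by ring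
  have h3η : 1 / η = 602 * (Q / w) := by
    rw [hη]
    field_simp
  have hQw : Q ≤ Q / w := by
    rw [le_div_iff₀ hw0]
    nlinarith
  have hD0 : 0 < 1 + η - ρ.re := by linarith
  have hm : 4 * (1 / (1 + η - ρ.re)) ≤ 2107 * (Q / w) := by
    linarith
  have hm2 : 4 ≤ 2107 * (Q / w) * (1 + η - ρ.re) := by
    have h1 : 4 * (1 / (1 + η - ρ.re)) = 4 / (1 + η - ρ.re) := by ring
    rw [h1, div_le_iff₀ hD0] at hm
    exact hm
  have hm3 : 4 / 2107 * (w / Q) ≤ 1 + η - ρ.re := by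
    have h1 : 2107 * (Q / w) * (4 / 2107 * (w / Q)) = 4 := by
      field_simp
    have h2 : 0 < 2107 * (Q / w) := by positivity
    by_contra hcon
    rw [not_le] at hcon
    have := mul_lt_mul_of_pos_left hcon h2
    linarith
  have e3 : η = 1 / 602 * (w / Q) := by
    rw [hη]
    field_simp
  have e4 : w / (4214 * Q) = 1 / 4214 * (w / Q) := by
    field_simp
  rw [e4]
  have hwQ : 0 < w / Q := by positivity
  linarith

/-- growth along a horizontal segment -/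
lemma grow (χ : DirichletCharacter ℂ q) {σ x1 t G : ℝ} (hσ : σ ≤ x1) (ht : t ≠ 0)
    (h : ∀ x ∈ Icc σ x1, χ.LFunction ⟨x, t⟩ ≠ 0 ∧
      ‖deriv χ.LFunction ⟨x, t⟩ / χ.LFunction ⟨x, t⟩‖ ≤ G) :
    ‖χ.LFunction ⟨x1, t⟩‖ ≤ ‖χ.LFunction ⟨σ, t⟩‖ * Real.exp (G * (x1 - σ)) := by
  have hd : ∀ x : ℝ, HasDerivAt (fun x : ℝ => χ.LFunction ⟨x, t⟩) (deriv χ.LFunction ⟨x, t⟩) x := by
    intro x
    have hne : (⟨x, t⟩ : ℂ) ≠ 1 := by
      intro he
      apply ht
      have := congrArg Complex.im he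
      simpa using this
    have h1 := (DirichletCharacter.differentiableAt_LFunction χ _ (Or.inl hne)).hasDerivAt
    have h2 : HasDerivAt (fun x : ℝ => (⟨x, t⟩ : ℂ)) 1 x := by
      have h3 : (fun x : ℝ => (⟨x, t⟩ : ℂ)) = fun x : ℝ => (x : ℂ) + t * I := by
        ext x
        apply Complex.ext <;> simp
      rw [h3]
      exact (HasDerivAt.ofReal_comp (hasDerivAt_id x)).add_const _
    have h3 := HasDerivAt.comp x h1 h2
    rw [mul_one] at h3
    exact h3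
  have hg := norm_le_gronwallBound_of_norm_deriv_right_le (f := fun x : ℝ => χ.LFunction ⟨x, t⟩)
    (f' := fun x => deriv χ.LFunction ⟨x, t⟩) (δ := ‖χ.LFunction ⟨σ, t⟩‖) (K := G) (ε := 0)
    (a := σ) (b := x1) (fun x _ => (hd x).continuousAt.continuousWithinAt)
    (fun x _ => (hd x).hasDerivWithinAt) le_rfl (fun x hx => by
      obtain ⟨h1, h2⟩ := h x ⟨hx.1, hx.2.le⟩
      have h3 : deriv χ.LFunction ⟨x, t⟩ =
          deriv χ.LFunction ⟨x, t⟩ / χ.LFunction ⟨x, t⟩ * χ.LFunction ⟨x, t⟩ := by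
        field_simp
      rw [add_zero, h3, norm_mul]
      exact mul_le_mul_of_nonneg_right h2 (norm_nonneg _)) x1 ⟨hσ, le_rfl⟩
  rwa [gronwallBound_ε0] at hg

/-- bound at one height -/
lemma bd {T w M Q t : ℝ} (hT : 3 ≤ T) (hw0 : 0 < w) (hw1 : w ≤ 1 / 32) (hM : 1 ≤ M) (hQ1 : 1 ≤ Q)
    (hlam : Real.log (2 * M / (w / (20000 * Q))) + 1 ≤ 5 * Q) (h : UB q T w M)
    (χ : DirichletCharacter ℂ q) (ht : 2 ≤ |t|) (htT : |t| ≤ T)
    (hz : ∀ ρ : ℂ, χ.LFunction ρ = 0 → |ρ.im - t| ≤ 1 / 10 → ρ.re ≤ 1 - w / (20000 * Q)) {σ : ℝ}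
    (hσ : 1 - w / (20000 * Q) / 2 ≤ σ) :
    χ.LFunction ⟨σ, t⟩ ≠ 0 ∧ ‖(χ.LFunction ⟨σ, t⟩)⁻¹‖ ≤ Real.exp (24 * Q) * (40000 * Q / w) := by
  have hloc := fun (η : ℝ) => @loc q _ T w M hT hw0 hw1 hM h χ t η (by linarith) (by linarith)
  have ht0 : t ≠ 0 := by
    intro h0
    rw [h0, abs_zero] at ht
    linarith
  have hQ0 : 0 < Q := by linarith
  set w1 : ℝ := w / (20000 * Q) with hw1def
  have hw10 : 0 < w1 := by positivity
  have hw1w : w1 ≤ w / 20000 := by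
    rw [hw1def]
    exact div_le_div_of_nonneg_left hw0.le (by norm_num) (by linarith)
  have hinv1 : 2 / w1 = 40000 * Q / w := by
    rw [hw1def]
    field_simp
    norm_num
  have hne1 : ∀ x : ℝ, (⟨x, t⟩ : ℂ) ≠ 1 := fun x => ne_one_of (by
    show 1 ≤ |t|
    linarith)
  have hright : ∀ x : ℝ, 1 + w1 ≤ x → χ.LFunction ⟨x, t⟩ ≠ 0 ∧
      ‖(χ.LFunction ⟨x, t⟩)⁻¹‖ ≤ 2 / w1 := by
    intro x hx
    have h1 : 1 < (⟨x, t⟩ : ℂ).re := by
      show 1 < x
      linarith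
    refine ⟨DirichletCharacter.LFunction_ne_zero_of_one_le_re χ (Or.inr (hne1 x)) h1.le,
      (inv_le χ h1).trans ?_⟩
    show 1 + 1 / (x - 1) ≤ 2 / w1
    have h2 : 1 / (x - 1) ≤ 1 / w1 := one_div_le_one_div_of_le hw10 (by linarith)
    have h3 : 1 ≤ 1 / w1 := by
      rw [le_div_iff₀ hw10]
      linarith
    have h4 : 2 / w1 = 1 / w1 + 1 / w1 := by ring
    linarith
  rw [← hinv1]
  have hE1 : 1 ≤ Real.exp (24 * Q) := Real.one_le_exp (by positivity)
  rcases le_or_gt (1 + w1) σ with hc | hc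
  · obtain ⟨h1, h2⟩ := hright σ hc
    exact ⟨h1, h2.trans (le_mul_of_one_le_left (by positivity) hE1)⟩
  have hseg : ∀ x ∈ Icc σ (1 + w1), χ.LFunction ⟨x, t⟩ ≠ 0 ∧
      ‖deriv χ.LFunction ⟨x, t⟩ / χ.LFunction ⟨x, t⟩‖ ≤ 16 * Q / w1 := by
    intro x hx
    obtain ⟨h1, h2⟩ := (hloc w1 hw10 (by linarith)).2.2 ⟨x, t⟩ (by
      rw [mem_closedBall, dist_eq_norm]
      have e : (⟨x, t⟩ : ℂ) - ⟨1 + w1, t⟩ = ((x - (1 + w1) : ℝ) : ℂ) := by
        apply Complex.ext <;> simp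
      rw [e, Complex.norm_real, Real.norm_eq_abs, abs_le]
      constructor <;> linarith [hx.1, hx.2]) (w1 / 2) (by linarith) (by
      intro ρ hρ hρ0
      rw [mem_closedBall, dist_eq_norm] at hρ
      have h2 := (abs_im_le_norm (ρ - ⟨1 + w1, t⟩)).trans hρ
      rw [sub_im] at h2
      have h3 := hz ρ hρ0 (h2.trans (by linarith))
      have h4 := (le_abs_self _).trans (abs_re_le_norm ((⟨x, t⟩ : ℂ) - ρ))
      rw [sub_re] at h4
      have h5 : (⟨x, t⟩ : ℂ).re = x := rfl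
      rw [h5] at h4
      linarith [hx.1])
    refine ⟨h1, h2.trans ?_⟩
    have e1 : Real.log (2 * M / w1) * (3 / 2) / (w1 / 2) ≤ 15 * Q / w1 := by
      have h3 : Real.log (2 * M / w1) ≤ 5 * Q := by linarith
      calc Real.log (2 * M / w1) * (3 / 2) / (w1 / 2) ≤ 5 * Q * (3 / 2) / (w1 / 2) := by gcongr
        _ = 15 * Q / w1 := by
          field_simp
          norm_num
    have e2 : 12 * (Real.log (2 * M / w1) + 1) / w ≤ Q / w1 := by
      calc 12 * (Real.log (2 * M / w1) + 1) / w ≤ 12 * (5 * Q) / w := by gcongr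
        _ ≤ 12 * (5 * Q) / (20000 * w1) := by
          apply div_le_div_of_nonneg_left (by positivity) (by positivity)
          linarith
        _ = 60 / 20000 * (Q / w1) := by
          field_simp
          norm_num
        _ ≤ Q / w1 := by
          have : 0 < Q / w1 := by positivity
          linarith
    have e3 : 16 * Q / w1 = 15 * Q / w1 + Q / w1 := by ring
    rw [e3]
    exact add_le_add e1 e2
  have hg := grow χ hc.le ht0 hseg
  obtain ⟨k1, k2⟩ := hright (1 + w1) le_rfl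
  have k3 := (hseg σ ⟨le_rfl, hc.le⟩).1
  refine ⟨k3, ?_⟩
  have hexp2 : Real.exp (16 * Q / w1 * (1 + w1 - σ)) ≤ Real.exp (24 * Q) := by
    apply Real.exp_le_exp.2
    have h1 : 16 * Q / w1 * (1 + w1 - σ) ≤ 16 * Q / w1 * (3 / 2 * w1) :=
      mul_le_mul_of_nonneg_left (by linarith) (by positivity)
    have h2 : 16 * Q / w1 * (3 / 2 * w1) = 24 * Q := by
      field_simp
      norm_num
    linarith
  have k4 : 0 < ‖χ.LFunction ⟨σ, t⟩‖ := norm_pos_iff.2 k3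
  have k5 : 0 < ‖χ.LFunction ⟨1 + w1, t⟩‖ := norm_pos_iff.2 k1
  have k6 : ‖χ.LFunction ⟨1 + w1, t⟩‖ ≤ ‖χ.LFunction ⟨σ, t⟩‖ * Real.exp (24 * Q) :=
    hg.trans (mul_le_mul_of_nonneg_left hexp2 (norm_nonneg _))
  rw [norm_inv] at k2 ⊢
  have k7 : ‖χ.LFunction ⟨σ, t⟩‖⁻¹ ≤ Real.exp (24 * Q) * ‖χ.LFunction ⟨1 + w1, t⟩‖⁻¹ := by
    rw [inv_eq_one_div, div_le_iff₀ k4]
    have h1 : Real.exp (24 * Q) * ‖χ.LFunction ⟨1 + w1, t⟩‖⁻¹ * ‖χ.LFunction ⟨σ, t⟩‖ =
        (‖χ.LFunction ⟨σ, t⟩‖ * Real.exp (24 * Q)) / ‖χ.LFunction ⟨1 + w1, t⟩‖ := by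
      ring
    rw [h1, le_div_iff₀ k5, one_mul]
    exact k6
  exact k7.trans (mul_le_mul_of_nonneg_left k2 (Real.exp_pos _).le)

/-- the logarithmic quantity -/
lemma lam_le {δ K L Q : ℝ} (hδ0 : 0 < δ) (hδ1 : δ < 1) (hK : 1 ≤ K) (hL : 1 ≤ L)
    (hQ : Q = (K + 2) * Real.log L) (hQ1 : 40 ≤ Q) {A : ℝ} (hA : 1 ≤ A) (hA2 : A ≤ 20000) :
    Real.log (2 * L ^ K / (L ^ (δ - 1) / 32 / (A * Q))) + 1 ≤ 5 * Q := by
  have hL0 : 0 < L := by linarith
  have hQ0 : 0 < Q := by linarith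
  have hp : 0 < L ^ (δ - 1) := Real.rpow_pos_of_pos hL0 _
  have hp2 : 0 < L ^ K := Real.rpow_pos_of_pos hL0 _
  have hA0 : 0 < A := by linarith
  have hlL : 0 ≤ Real.log L := Real.log_nonneg hL
  have e : 2 * L ^ K / (L ^ (δ - 1) / 32 / (A * Q)) = (64 * A) * Q * L ^ K / L ^ (δ - 1) := by
    field_simp
    ring
  rw [e, Real.log_div (by positivity) (by positivity), Real.log_mul (by positivity) (by positivity),
    Real.log_mul (by positivity) (by positivity), Real.log_rpow hL0, Real.log_rpow hL0]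
  have h1 : Real.log Q ≤ Q := (Real.log_le_sub_one_of_pos hQ0).trans (by linarith)
  have h2 : Real.log (64 * A) ≤ 21 := by
    have h3 : Real.log (64 * A) ≤ Real.log (2 ^ 21) := Real.log_le_log (by positivity) (by norm_num; linarith)
    rw [Real.log_pow] at h3
    have h4 := Real.log_two_lt_d9
    push_cast at h3
    linarith
  have h3 : K * Real.log L + Real.log L ≤ Q := by
    rw [hQ]
    nlinarith
  have h4 : 0 ≤ δ * Real.log L := by positivity
  have h5 : (δ - 1) * Real.log L = δ * Real.log L - Real.log L := by ring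
  rw [h5]
  linarith

end Pool.Agent.L7h50.BW.Lzf

namespace Pool.Agent.L7h50.BW

open Pool.Agent.Q236.CR

/-- (LZF) -/
theorem s_LZF (hLUP : S_LUP) : S_LZF := by
  intro B
  obtain ⟨δ, K, T₀, hδ0, hδ1, hK, hT₀, h⟩ := hLUP B
  obtain ⟨C0, hC0, hzf⟩ := Lzf.zfree
  have hlt : Tendsto Real.log atTop atTop := Real.tendsto_log_atTop
  have hlo : ∀ᶠ L : ℝ in atTop, 1280000 * (K + 2) * Real.log L ≤ L ^ (δ / 2) := by
    have h1 := (isLittleO_log_rpow_atTop (half_pos hδ0)).bound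
      (show (0 : ℝ) < 1 / (1280000 * (K + 2)) by positivity)
    filter_upwards [h1, eventually_ge_atTop 1] with L h2 h3
    rw [Real.norm_of_nonneg (Real.log_nonneg h3),
      Real.norm_of_nonneg (Real.rpow_nonneg (by linarith) _), one_div, ← div_eq_inv_mul,
      le_div_iff₀ (by positivity)] at h2
    linarith
  have hev : ∀ᶠ L : ℝ in atTop, 1280000 * (K + 2) ≤ L ∧ 40 ≤ Real.log L ∧
      C0 ≤ Real.log L ∧ 1280000 * (K + 2) * Real.log L ≤ L ^ (δ / 2) := by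
    filter_upwards [eventually_ge_atTop (1280000 * (K + 2)), hlt.eventually_ge_atTop 40,
      hlt.eventually_ge_atTop C0, hlo] with L h1 h2 h4 h5
    exact ⟨h1, h2, h4, h5⟩
  obtain ⟨L0, hL0⟩ := eventually_atTop.1 hev
  refine ⟨δ / 2, 24 * (K + 2) + 3, max T₀ (Real.exp L0), by linarith, by linarith, by linarith,
    hT₀.trans (le_max_left _ _), ?_⟩
  intro T hT q hqN hq χ s hs1 hs2 hre hre2
  have hTT : T₀ ≤ T := (le_max_left _ _).trans hT
  have hT3 : 3 ≤ T := hT₀.trans hTT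
  have hT0 : 0 < T := by linarith
  have hUB0 := h T hTT q hqN hq
  obtain ⟨L, hLd⟩ : ∃ L, L = Real.log T := ⟨_, rfl⟩
  have hLL : L0 ≤ L := by
    rw [hLd, Real.le_log_iff_exp_le hT0]
    exact (le_max_right _ _).trans hT
  rw [← hLd] at hre hUB0 ⊢
  obtain ⟨h1, h2, h4, h5⟩ := hL0 L hLL
  have hL1 : 1 ≤ L := by nlinarith
  have hLp : 0 < L := by linarith
  set Q : ℝ := (K + 2) * Real.log L with hQ
  have hQl : Real.log L ≤ Q := by
    rw [hQ]
    nlinarith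
  have hQ40 : 40 ≤ Q := by linarith
  have hQ0 : 0 < Q := by linarith
  set w : ℝ := L ^ (δ - 1) / 32 with hw
  have hwp : 0 < L ^ (δ - 1) := Real.rpow_pos_of_pos hLp _
  have hwp1 : L ^ (δ - 1) ≤ 1 := Real.rpow_le_one_of_one_le_of_nonpos hL1 (by linarith)
  have hw0 : 0 < w := by positivity
  have hw1 : w ≤ 1 / 32 := by rw [hw]; linarith
  have hM : 1 ≤ L ^ K := Real.one_le_rpow hL1 (by linarith)
  have hUB : Lzf.UB q T w (L ^ K) := by
    intro χ' s' a1 a2 a3 a4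
    refine hUB0 χ' s' a1 a2 ?_ a4
    rw [hw] at a3
    linarith
  have hz : ∀ ρ : ℂ, χ.LFunction ρ = 0 → |ρ.im - s.im| ≤ 1 / 10 →
      ρ.re ≤ 1 - w / (20000 * Q) := by
    intro ρ hρ hρt
    have a1 : |s.im| - |ρ.im| ≤ |ρ.im - s.im| := by
      rw [abs_sub_comm]
      exact abs_sub_abs_le_abs_sub _ _
    have a2 : |ρ.im| - |s.im| ≤ |ρ.im - s.im| := abs_sub_abs_le_abs_sub _ _
    have g7 := hzf q hqN T w (L ^ K) Q hT3 hw0 hw1 hM (by linarith) (by linarith)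
      (Lzf.lam_le hδ0 hδ1 hK hL1 hQ hQ40 (by norm_num) (by norm_num)) hUB χ ρ hρ (by linarith)
      (by linarith)
    refine g7.trans ?_
    have n5 : w / (20000 * Q) ≤ w / (4214 * Q) :=
      div_le_div_of_nonneg_left hw0.le (by positivity) (by linarith)
    linarith
  have hσ2 : 1 - w / (20000 * Q) / 2 ≤ s.re := by
    have q1 : L ^ (δ / 2 - 1) ≤ w / (20000 * Q) / 2 := by
      have q2 : w / (20000 * Q) / 2 = L ^ (δ - 1) / (1280000 * Q) := by
        rw [hw]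
        field_simp
        norm_num
      rw [q2, le_div_iff₀ (by positivity)]
      have q3 : L ^ (δ - 1) = L ^ (δ / 2 - 1) * L ^ (δ / 2) := by
        rw [← Real.rpow_add hLp]
        congr 1
        ring
      rw [q3]
      refine mul_le_mul_of_nonneg_left ?_ (Real.rpow_nonneg hLp.le _)
      rw [hQ]
      linarith
    linarith
  obtain ⟨r1, r2⟩ := Lzf.bd hT3 hw0 hw1 hM (by linarith)
    (Lzf.lam_le hδ0 hδ1 hK hL1 hQ hQ40 (by norm_num) le_rfl) hUB χ hs1 hs2 hz hσ2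
  refine ⟨r1, r2.trans ?_⟩
  have hexp : Real.exp (24 * Q) = L ^ (24 * (K + 2)) := by
    rw [Real.rpow_def_of_pos hLp, hQ]
    congr 1
    ring
  have h6 : 40000 * Q / w ≤ L ^ (3 : ℕ) := by
    have h7 : L ^ (-1 : ℝ) ≤ L ^ (δ - 1) := Real.rpow_le_rpow_of_exponent_le hL1 (by linarith)
    rw [Real.rpow_neg_one] at h7
    have h8 : 1 ≤ L * L ^ (δ - 1) := by
      have := mul_le_mul_of_nonneg_left h7 hLp.le
      rwa [mul_inv_cancel₀ hLp.ne'] at this
    have hlog : Real.log L ≤ L := (Real.log_le_sub_one_of_pos hLp).trans (by linarith)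
    rw [div_le_iff₀ hw0, hw, hQ]
    calc 40000 * ((K + 2) * Real.log L) ≤ 40000 * ((K + 2) * L) := by gcongr
      _ = (1280000 * (K + 2)) * L * 1 / 32 := by ring
      _ ≤ L * L * (L * L ^ (δ - 1)) / 32 := by gcongr
      _ = L ^ 3 * (L ^ (δ - 1) / 32) := by ring
  rw [hexp, Real.rpow_add hLp]
  have h7 : L ^ (3 : ℝ) = L ^ (3 : ℕ) := by
    have : (3 : ℝ) = ((3 : ℕ) : ℝ) := by norm_num
    rw [this, Real.rpow_natCast]
  rw [h7]
  exact mul_le_mul_of_nonneg_left h6 (Real.rpow_nonneg hLp.le _)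

end Pool.Agent.L7h50.BW
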